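import Pool.Agent.Y957.VK.Stm2

set_option autoImplicit false

/-!
Project T (helper798): prime values along trees of maps `x ↦ ⌊α x^c⌋ + b`, for almost every choice of the
multipliers `α`.  Definitions and statements of the steps.
-/

namespace Pool.Agent.N798.T

open Finset MeasureTheory Filter Topology
open scoped ENNReal
open Pool.Agent.H376R2.MR (er)

/-- a bounded arithmetic function of density `1 / (log u)^e`, with small twisted sums -/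
structure Wt (a : ℕ → ℂ) (e : ℕ) : Prop where
  le_one : ∀ n, ‖a n‖ ≤ 1
  tw : ∀ A K : ℕ, ∃ (K' : ℕ) (C : ℝ), ∀ (N N' : ℕ) (τ : ℝ), 2 ≤ N → N ≤ N' → N' ≤ 2 * N →
    (Real.log N) ^ K' ≤ |τ| → |τ| ≤ (N : ℝ) ^ A →
      ‖∑ n ∈ Ioc N N', a n * er τ (Real.log n)‖ ≤ C * N / (Real.log N) ^ K
  mn : ∀ K : ℕ, ∃ C : ℝ, ∀ N N' : ℕ, 2 ≤ N → N ≤ N' → N' ≤ 2 * N →
    ‖∑ n ∈ Ioc N N', a n - ((∫ u in (N : ℝ)..N', 1 / (Real.log u) ^ e : ℝ) : ℂ)‖ ≤ C * N / (Real.log N) ^ K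

/-- (WO) the constant function -/
def S_WO : Prop := Wt (fun _ => 1) 0

/-- (WP) the primes -/
def S_WP : Prop := Wt (fun n => if n.Prime then 1 else 0) 1

/-- the integer `⌊x⌋ + b`, as a natural number -/
noncomputable def vl (b : ℤ) (x : ℝ) : ℕ := (⌊x⌋ + b).toNat

/-- (FT) Fourier transform of a twisted weight over a window -/
def S_FT : Prop := ∀ (a : ℕ → ℂ) (e : ℕ), Wt a e → ∀ (b : ℤ) (A K : ℕ) (R : ℝ), 0 ≤ R →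
  ∃ (K' : ℕ) (C : ℝ), ∀ Y y1 y2 τ η : ℝ, 1 ≤ Y → Y ≤ y1 → y1 ≤ y2 → y2 ≤ Y + R →
    |τ| ≤ Real.exp (A * Y) → |η| ≤ Real.exp (A * Y) → Y ^ K' ≤ |τ - η| →
      ‖∫ y in y1..y2, a (vl b (Real.exp y)) * er τ (Real.log (vl b (Real.exp y))) * er (-η) y‖ ≤ C / Y ^ K

/-- (F0) Fourier transform of a weight minus its density, low frequencies -/
def S_F0 : Prop := ∀ (a : ℕ → ℂ) (e : ℕ), Wt a e → ∀ (b : ℤ) (K K1 : ℕ) (R : ℝ), 0 ≤ R →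
  ∃ C : ℝ, ∀ Y y1 y2 η : ℝ, 1 ≤ Y → Y ≤ y1 → y1 ≤ y2 → y2 ≤ Y + R → |η| ≤ Y ^ K1 →
      ‖∫ y in y1..y2, (a (vl b (Real.exp y)) - ((1 / y ^ e : ℝ) : ℂ)) * er (-η) y‖ ≤ C / Y ^ K

/-- (FD) decay of the Fourier transforms of these step functions -/
def S_FD : Prop := ∀ (a : ℕ → ℂ) (b : ℤ) (e : ℕ), (∀ n, ‖a n‖ ≤ 1) → ∀ y1 y2 τ η : ℝ, 1 ≤ y1 → y1 ≤ y2 → 0 < |η| →
  ‖∫ y in y1..y2, a (vl b (Real.exp y)) * er τ (Real.log (vl b (Real.exp y))) * er (-η) y‖ ≤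
      2 * (Real.exp y2 + 1) / |η| ∧
  ‖∫ y in y1..y2, (a (vl b (Real.exp y)) - ((1 / y ^ e : ℝ) : ℂ)) * er (-η) y‖ ≤
      (2 * (Real.exp y2 + 1) + 4) / |η|

/-- (PL) the Plancherel step for families, with an exceptional interval of frequencies -/
def S_PL : Prop := ∀ (Ω : Type) [MeasurableSpace Ω] (m : Measure Ω) [IsFiniteMeasure m] (s : Finset ℕ)
  (g : Ω → ℕ → ℂ) (φ : Ω → ℕ → ℝ), (∀ n, Measurable fun ω => g ω n) → (∀ n, Measurable fun ω => φ ω n) →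
  (∀ ω n, ‖g ω n‖ ≤ 1) → ∀ H : ℝ → ℂ, Measurable H → (∀ y, ‖H y‖ ≤ 2) →
  ∀ Y R : ℝ, 0 ≤ R → (∀ y, y ∉ Set.Icc Y (Y + R) → H y = 0) →
  ∀ V : ℝ, 0 ≤ V → (∀ η : ℝ, 0 < |η| → ‖∫ y, H y * er (-η) y‖ ≤ V / |η|) →
  ∀ T κ S p q : ℝ, 1 ≤ T → 0 ≤ κ → 0 ≤ S → p ≤ q →
  (∀ η ∈ Set.Icc p q, |η| ≤ T → ‖∫ y, H y * er (-η) y‖ ≤ κ) →
  (∀ η : ℝ, |η| ≤ T → η ∉ Set.Icc p q →
    ∫⁻ ω, ‖∑ n ∈ s, g ω n * er η (φ ω n)‖ₑ ^ 2 ∂m ≤ ENNReal.ofReal S) →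
  ∫⁻ ω, (∫⁻ u, ‖∑ n ∈ s, g ω n * H (u + φ ω n)‖ₑ ^ 2) ∂m ≤
    ENNReal.ofReal (((q - p) * κ ^ 2 + 2 * V ^ 2 / T) * (s.card : ℝ) ^ 2 * m.real Set.univ + 4 * R * S)

/-- the values at the nodes of the tree with parents `par`, started from `n` -/
noncomputable def nd (par : ℕ → ℕ) (b : ℕ → ℤ) (c α : ℕ → ℝ) (n : ℕ) : ℕ → ℕ
  | 0 => n
  | j + 1 => if _h : par j ≤ j then vl (b j) (α j * (nd par b c α n (par j) : ℝ) ^ (c j)) else 0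

/-- the exponents: the value at the node `v` is about `n ^ (ex par c v)` -/
noncomputable def ex (par : ℕ → ℕ) (c : ℕ → ℝ) : ℕ → ℝ
  | 0 => 1
  | j + 1 => if _h : par j ≤ j then ex par c (par j) * c j else 1

/-- (SZ) sizes of the values -/
def S_SZ : Prop := ∀ (par : ℕ → ℕ) (b : ℕ → ℤ) (c : ℕ → ℝ), (∀ j, par j ≤ j) → (∀ j, 0 < c j) →
  ∀ (v : ℕ) (lo hi : ℝ), 0 < lo → 1 ≤ hi → ∃ (κ : ℝ) (n0 : ℕ), 1 ≤ κ ∧ ∀ α : ℕ → ℝ, (∀ j < v, lo ≤ α j ∧ α j ≤ hi) →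
    ∀ n : ℕ, n0 ≤ n → κ⁻¹ * (n : ℝ) ^ (ex par c v) ≤ nd par b c α n v ∧
      (nd par b c α n v : ℝ) ≤ κ * (n : ℝ) ^ (ex par c v)

/-- the cube -/
noncomputable def mu (k : ℕ) : Measure (Fin k → ℝ) :=
  Measure.pi fun _ : Fin k => (volume : Measure ℝ).restrict (Set.Icc (0 : ℝ) 1)

/-- the multipliers attached to a point of the cube -/
noncomputable def al (s : ℕ → ℝ) (k : ℕ) (ω : Fin k → ℝ) (j : ℕ) : ℝ :=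
  if h : j < k then Real.exp (s j + max 0 (min 1 (ω ⟨j, h⟩))) else 1

/-- the product of the weights and twists over the nodes `0, …, k` -/
noncomputable def TW (a : ℕ → ℕ → ℂ) (par : ℕ → ℕ) (b : ℕ → ℤ) (c s : ℕ → ℝ) (k : ℕ) (ω : Fin k → ℝ) (n : ℕ)
    (τ : ℕ → ℝ) : ℂ :=
  ∏ v ∈ range (k + 1), a v (nd par b c (al s k ω) n v) * er (τ v) (Real.log (nd par b c (al s k ω) n v))

/-- the twisted sums are small in mean square, unless the total frequency is small -/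
def Reg (a : ℕ → ℕ → ℂ) (par : ℕ → ℕ) (b : ℕ → ℤ) (c s : ℕ → ℝ) (k : ℕ) : Prop :=
  ∀ A K : ℕ, ∃ (K' : ℕ) (D : ℝ), 0 ≤ D ∧ ∀ (N N' : ℕ) (τ : ℕ → ℝ), 2 ≤ N → N ≤ N' → N' ≤ 2 * N →
    (∀ v ∈ range (k + 1), |τ v| ≤ (N : ℝ) ^ A) → (Real.log N) ^ K' ≤ |∑ v ∈ range (k + 1), ex par c v * τ v| →
      ∫⁻ ω, ‖∑ n ∈ Ioc N N', TW a par b c s k ω n τ‖ₑ ^ 2 ∂(mu k) ≤
        ENNReal.ofReal (D * N ^ 2 / (Real.log N) ^ K)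

/-- (R0) the first node -/
def S_R0 : Prop := ∀ (a : ℕ → ℕ → ℂ) (e : ℕ) (par : ℕ → ℕ) (b : ℕ → ℤ) (c s : ℕ → ℝ), Wt (a 0) e →
  Reg a par b c s 0

/-- (RS) one more node -/
def S_RS : Prop := ∀ (a : ℕ → ℕ → ℂ) (e : ℕ → ℕ) (par : ℕ → ℕ) (b : ℕ → ℤ) (c s : ℕ → ℝ),
  (∀ v, Wt (a v) (e v)) → (∀ j, par j ≤ j) → (∀ j, 0 < c j) → ∀ k : ℕ, Reg a par b c s k → Reg a par b c s (k + 1)

/-- the product of the weights over the nodes `0, …, k`, times the last weight minus its density -/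
noncomputable def CW (a : ℕ → ℕ → ℂ) (e : ℕ → ℕ) (par : ℕ → ℕ) (b : ℕ → ℤ) (c s : ℕ → ℝ) (k : ℕ)
    (ω : Fin (k + 1) → ℝ) (n : ℕ) : ℂ :=
  (∏ v ∈ range (k + 1), a v (nd par b c (al s (k + 1) ω) n v)) *
    (a (k + 1) (nd par b c (al s (k + 1) ω) n (k + 1)) -
      ((1 / (Real.log (al s (k + 1) ω k * (nd par b c (al s (k + 1) ω) n (par k) : ℝ) ^ (c k))) ^ (e (k + 1)) : ℝ) : ℂ))

/-- (CE) the centred sums are small in mean square -/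
def S_CE : Prop := ∀ (a : ℕ → ℕ → ℂ) (e : ℕ → ℕ) (par : ℕ → ℕ) (b : ℕ → ℤ) (c s : ℕ → ℝ),
  (∀ v, Wt (a v) (e v)) → (∀ j, par j ≤ j) → (∀ j, 0 < c j) → ∀ k : ℕ, Reg a par b c s k →
  ∀ K : ℕ, ∃ (D : ℝ) (N0 : ℕ), 0 ≤ D ∧ 2 ≤ N0 ∧ ∀ N N' : ℕ, N0 ≤ N → N ≤ N' → N' ≤ 2 * N →
    ∫⁻ ω, ‖∑ n ∈ Ioc N N', CW a e par b c s k ω n‖ₑ ^ 2 ∂(mu (k + 1)) ≤
      ENNReal.ofReal (D * N ^ 2 / (Real.log N) ^ K)

/-- (BC) from mean squares to almost every parameter -/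
def S_BCI : Prop := ∀ (Ω : Type) [MeasurableSpace Ω] (m : Measure Ω) [IsFiniteMeasure m] (g : Ω → ℕ → ℂ) (N1 : ℕ),
  (∀ n, Measurable fun ω => g ω n) → (∀ ω, ∀ n, N1 ≤ n → ‖g ω n‖ ≤ 2) →
  (∀ K : ℕ, ∃ (D : ℝ) (N0 : ℕ), 0 ≤ D ∧ 2 ≤ N0 ∧ ∀ N N' : ℕ, N0 ≤ N → N ≤ N' → N' ≤ 2 * N →
    ∫⁻ ω, ‖∑ n ∈ Ioc N N', g ω n‖ₑ ^ 2 ∂m ≤ ENNReal.ofReal (D * N ^ 2 / (Real.log N) ^ K)) →
  ∀ᵐ ω ∂m, ∀ K : ℕ, Tendsto (fun N : ℕ => (Real.log N) ^ K / N * ‖∑ n ∈ Icc 1 N, g ω n‖) atTop (𝓝 0)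

/-- (SU) a slowly varying weight under the sum -/
def S_SU : Prop := ∀ (x y : ℕ → ℝ) (E e : ℕ) (C Q : ℝ), (∀ n, 0 ≤ x n) → (∀ n, x n ≤ 1) → 0 < C → 0 < Q →
  Tendsto (fun N : ℕ => (∑ n ∈ Icc 1 N, x n) * (Real.log N) ^ E / N) atTop (𝓝 Q) →
  Tendsto (fun n : ℕ => y n * (C * Real.log n) ^ e) atTop (𝓝 1) →
  Tendsto (fun N : ℕ => (∑ n ∈ Icc 1 N, x n * y n) * (Real.log N) ^ (E + e) / N) atTop (𝓝 (Q / C ^ e))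

/-- (CU) from the cubes to the positive orthant -/
def S_CU : Prop := ∀ (k : ℕ) (P : (Fin k → ℝ) → Prop),
  (∀ s : ℕ → ℝ, ∀ᵐ ω ∂(mu k), P (fun j => al s k ω j)) →
  ∀ᵐ α ∂((volume : Measure (Fin k → ℝ)).restrict {α | ∀ i, 0 < α i}), P α

end Pool.Agent.N798.T
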