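import Pool.Agent.N798.T.Stm

set_option autoImplicit false

/-! Project T: bookkeeping for the nodes. -/

namespace Pool.Agent.N798.T

open Finset MeasureTheory Filter Topology
open scoped ENNReal
open Pool.Agent.H376R2.MR (er)

lemma nd_zero (par : ℕ → ℕ) (b : ℕ → ℤ) (c α : ℕ → ℝ) (n : ℕ) : nd par b c α n 0 = n := by
  rw [nd]

lemma nd_succ (par : ℕ → ℕ) (b : ℕ → ℤ) (c α : ℕ → ℝ) (n j : ℕ) (h : par j ≤ j) :
    nd par b c α n (j + 1) = vl (b j) (α j * (nd par b c α n (par j) : ℝ) ^ (c j)) := by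
  rw [nd, dif_pos h]

lemma ex_zero (par : ℕ → ℕ) (c : ℕ → ℝ) : ex par c 0 = 1 := by
  rw [ex]

lemma ex_succ (par : ℕ → ℕ) (c : ℕ → ℝ) (j : ℕ) (h : par j ≤ j) : ex par c (j + 1) = ex par c (par j) * c j := by
  rw [ex, dif_pos h]

lemma ex_pos (par : ℕ → ℕ) (c : ℕ → ℝ) (hc : ∀ j, 0 < c j) (v : ℕ) : 0 < ex par c v := by
  induction v using Nat.strong_induction_on with
  | _ v ih =>
    rcases v with _ | j
    · rw [ex_zero]; exact one_pos
    · rw [ex]
      split_ifs with h
      · exact mul_pos (ih _ (by omega)) (hc j)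
      · exact one_pos

lemma nd_congr (par : ℕ → ℕ) (b : ℕ → ℤ) (c α α' : ℕ → ℝ) (n v : ℕ) (h : ∀ j < v, α j = α' j) :
    nd par b c α n v = nd par b c α' n v := by
  induction v using Nat.strong_induction_on with
  | _ v ih =>
    rcases v with _ | j
    · rw [nd_zero, nd_zero]
    · rw [nd, nd]
      split_ifs with hp
      · rw [h j (by omega), ih (par j) (by omega) fun i hi => h i (by omega)]
      · rfl

variable {s : ℕ → ℝ} {k : ℕ}

lemma al_old (ω : Fin k → ℝ) (u : ℝ) (j : ℕ) (hj : j < k) :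
    al s (k + 1) (Fin.snoc ω u : Fin (k + 1) → ℝ) j = al s k ω j := by
  unfold al
  rw [dif_pos (by omega : j < k + 1), dif_pos hj]
  congr 4
  have : (⟨j, by omega⟩ : Fin (k + 1)) = Fin.castSucc ⟨j, hj⟩ := rfl
  rw [this, Fin.snoc_castSucc (α := fun _ => ℝ)]

lemma al_new (ω : Fin k → ℝ) (u : ℝ) :
    al s (k + 1) (Fin.snoc ω u : Fin (k + 1) → ℝ) k = Real.exp (s k + max 0 (min 1 u)) := by
  unfold al
  rw [dif_pos (by omega : k < k + 1)]
  congr 4
  have : (⟨k, by omega⟩ : Fin (k + 1)) = Fin.last k := rfl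
  rw [this, Fin.snoc_last (α := fun _ => ℝ)]

lemma clamp_id {u : ℝ} (hu : u ∈ Set.Icc (0:ℝ) 1) : max 0 (min 1 u) = u := by
  rw [min_eq_right hu.2, max_eq_right hu.1]

lemma nd_old (par : ℕ → ℕ) (b : ℕ → ℤ) (c : ℕ → ℝ) (ω : Fin k → ℝ) (u : ℝ) (n v : ℕ) (hv : v ≤ k) :
    nd par b c (al s (k + 1) (Fin.snoc ω u : Fin (k + 1) → ℝ)) n v = nd par b c (al s k ω) n v :=
  nd_congr _ _ _ _ _ _ _ fun j hj => al_old ω u j (by omega)

lemma nd_new (par : ℕ → ℕ) (b : ℕ → ℤ) (c : ℕ → ℝ) (hp : par k ≤ k) (ω : Fin k → ℝ) (u : ℝ) (n : ℕ) :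
    nd par b c (al s (k + 1) (Fin.snoc ω u : Fin (k + 1) → ℝ)) n (k + 1) =
      vl (b k) (Real.exp (s k + max 0 (min 1 u)) * (nd par b c (al s k ω) n (par k) : ℝ) ^ (c k)) := by
  rw [nd_succ _ _ _ _ _ _ hp, al_new, nd_old _ _ _ _ _ _ _ hp]

lemma al_meas (j : ℕ) : Measurable fun ω : Fin k → ℝ => al s k ω j := by
  unfold al
  split_ifs with h
  · exact ((measurable_const.max (measurable_const.min (measurable_pi_apply _))).const_add _).exp
  · exact measurable_const

lemma vl_meas (b : ℤ) : Measurable (vl b) := by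
  unfold vl
  have h1 : Measurable fun x : ℝ => ⌊x⌋ + b := (Int.measurable_floor).add_const b
  exact (measurable_of_countable (fun z : ℤ => z.toNat)).comp h1

lemma nd_meas (par : ℕ → ℕ) (b : ℕ → ℤ) (c : ℕ → ℝ) (n v : ℕ) :
    Measurable fun ω : Fin k → ℝ => nd par b c (al s k ω) n v := by
  induction v using Nat.strong_induction_on with
  | _ v ih =>
    rcases v with _ | j
    · simp only [nd_zero]; exact measurable_const
    · by_cases hp : par j ≤ j
      · simp only [nd_succ _ _ _ _ _ _ hp]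
        refine (vl_meas _).comp ((al_meas j).mul ?_)
        have h1 : Measurable fun m : ℕ => ((m : ℝ) ^ (c j)) := measurable_of_countable _
        exact h1.comp (ih (par j) (by omega))
      · have : (fun ω : Fin k → ℝ => nd par b c (al s k ω) n (j + 1)) = fun _ => 0 := by
          funext ω
          rw [nd, dif_neg hp]
        rw [this]
        exact measurable_const

lemma lint_succ (f : (Fin (k + 1) → ℝ) → ℝ≥0∞) (hf : Measurable f) :
    ∫⁻ ω, f ω ∂(mu (k + 1)) = ∫⁻ ω, (∫⁻ u in Set.Icc (0:ℝ) 1, f (Fin.snoc ω u : Fin (k + 1) → ℝ)) ∂(mu k) := by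
  unfold mu
  have mp1 := measurePreserving_piFinSuccAbove
      (fun _ : Fin (k + 1) => (volume : Measure ℝ).restrict (Set.Icc (0 : ℝ) 1)) (Fin.last k)
  have mp2 := mp1.symm
  rw [← mp2.lintegral_comp hf, lintegral_prod_symm]
  · refine lintegral_congr fun ω => lintegral_congr fun u => ?_
    congr 1
    have : (MeasurableEquiv.piFinSuccAbove (fun _ : Fin (k + 1) => ℝ) (Fin.last k)).symm (u, ω) =
        Fin.insertNth (Fin.last k) u ω := rfl
    rw [this, Fin.insertNth_last']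
  · exact (hf.comp (MeasurableEquiv.measurable _)).aemeasurable

instance : IsProbabilityMeasure ((volume : Measure ℝ).restrict (Set.Icc (0 : ℝ) 1)) :=
  ⟨by rw [Measure.restrict_apply_univ, Real.volume_Icc]; norm_num⟩

instance (k : ℕ) : IsProbabilityMeasure (mu k) := by
  unfold mu
  infer_instance

end Pool.Agent.N798.T
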