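import Pool.Agent.N798.T.As
import Pool.Agent.N31.T.WP
import Pool.Agent.N765.T.WO
import Pool.Agent.N216.T.FT
import Pool.Agent.N539.T.F0
import Pool.Agent.N539.T.FD
import Pool.Agent.N499.T.PL
import Pool.Agent.N169.T.SZ
import Pool.Agent.N163.T.R0
import Pool.Agent.N364.T.BCI
import Pool.Agent.N901.T.SU
import Pool.Agent.N262.T.CU
import Pool.Agent.Y957.VK.Fin3

set_option autoImplicit false
set_option maxHeartbeats 1000000

/-! Project T: asymptotics for almost every point of the cube. -/

namespace Pool.Agent.N798.T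

open Finset MeasureTheory Filter Topology
open scoped ENNReal
open Pool.Agent.H376R2.MR (er)

theorem wt (U : Finset ℕ) (v : ℕ) : Wt (aw U v) (ew U v) :=
  wt_aw Pool.Agent.N765.T.wo (Pool.Agent.N31.T.wp Pool.Agent.Y957.VK.lam_all Pool.Agent.N765.T.wo) U v

variable {par : ℕ → ℕ} {b : ℕ → ℤ} {c s : ℕ → ℝ} {k : ℕ}

theorem reg (U : Finset ℕ) (par : ℕ → ℕ) (b : ℕ → ℤ) (c s : ℕ → ℝ) (hpar : ∀ j, par j ≤ j) (hc : ∀ j, 0 < c j) (k : ℕ) :
    Reg (aw U) par b c s k := by
  induction k with
  | zero => exact Pool.Agent.N163.T.r0 (aw U) (ew U 0) par b c s (wt U 0)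
  | succ k ih =>
    exact rs Pool.Agent.N216.T.FT.ft Pool.Agent.N539.T.fd Pool.Agent.N499.T.pl Pool.Agent.N169.T.sz
      (aw U) (ew U) par b c s (wt U) hpar hc k ih

/-- the reciprocal of the logarithm of the argument of the last map -/
noncomputable def yv (U : Finset ℕ) (par : ℕ → ℕ) (b : ℕ → ℤ) (c s : ℕ → ℝ) (k : ℕ) (ω : Fin (k + 1) → ℝ) (n : ℕ) : ℝ :=
  1 / (Real.log (al s (k + 1) ω k * (nd par b c (al s (k + 1) ω) n (par k) : ℝ) ^ (c k))) ^ (ew U (k + 1))

lemma CW_eq (U : Finset ℕ) (ω : Fin (k + 1) → ℝ) (n : ℕ) :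
    CW (aw U) (ew U) par b c s k ω n =
      ((xr U par b c (al s (k + 1) ω) (k + 1) n - xr U par b c (al s (k + 1) ω) k n * yv U par b c s k ω n : ℝ) : ℂ) := by
  unfold CW yv
  rw [xr_succ, ← xr_cast]
  push_cast
  unfold aw
  split_ifs <;> simp <;> ring

theorem ae_asym (U : Finset ℕ) (par : ℕ → ℕ) (b : ℕ → ℤ) (c s : ℕ → ℝ) (hpar : ∀ j, par j ≤ j) (hc : ∀ j, 0 < c j)
    (k : ℕ) : ∀ᵐ ω ∂(mu k), Tendsto (fun N : ℕ => (∑ n ∈ Icc 1 N, xr U par b c (al s k ω) k n) *
      (Real.log N) ^ (∑ v ∈ range (k + 1), ew U v) / N) atTop (𝓝 (∏ v ∈ range (k + 1), 1 / (ex par c v) ^ (ew U v))) := by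
  induction k with
  | zero => exact Eventually.of_forall fun ω => base_asym U par b c (al s 0 ω)
  | succ k ih =>
    obtain ⟨B, n1, hn1, hB⟩ := logx (b := b) (s := s) (k := k) Pool.Agent.N169.T.sz hpar hc
    have hCw := ex_pos par c hc (k + 1)
    have hl : Tendsto (fun N : ℕ => Real.log (N:ℝ)) atTop atTop := Real.tendsto_log_atTop.comp tendsto_natCast_atTop_atTop
    obtain ⟨n2, hn2⟩ := eventually_atTop.mp (hl.eventually_ge_atTop ((|B| + 1) / ex par c (k + 1)))
    have hlog1 : ∀ ω : Fin (k + 1) → ℝ, ∀ n : ℕ, max n1 n2 ≤ n →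
        1 ≤ Real.log (al s (k + 1) ω k * (nd par b c (al s (k + 1) ω) n (par k) : ℝ) ^ (c k)) := by
      intro ω n hn
      have h1 := hB ω n ((le_max_left _ _).trans hn)
      have h2 := hn2 n ((le_max_right _ _).trans hn)
      rw [div_le_iff₀ hCw] at h2
      have h3 := (abs_le.mp h1).1
      have h4 := le_abs_self B
      linarith
    -- Borel-Cantelli
    have hbc := Pool.Agent.N364.T.bci (Fin (k + 1) → ℝ) (mu (k + 1)) (fun ω n => CW (aw U) (ew U) par b c s k ω n)
      (max n1 n2) (fun n => CW_meas n) (by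
        intro ω n hn
        rw [CW_eq, Complex.norm_real, Real.norm_eq_abs]
        have h1 := hlog1 ω n hn
        have h2 : 0 ≤ yv U par b c s k ω n ∧ yv U par b c s k ω n ≤ 1 := by
          unfold yv
          have h3 : 1 ≤ (Real.log (al s (k + 1) ω k * (nd par b c (al s (k + 1) ω) n (par k) : ℝ) ^ (c k))) ^ (ew U (k + 1)) :=
            one_le_pow₀ h1
          exact ⟨by positivity, by rw [div_le_one (by linarith)]; exact h3⟩
        have h3 := xr_nonneg U par b c (al s (k + 1) ω) (k + 1) n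
        have h4 := xr_le U par b c (al s (k + 1) ω) (k + 1) n
        have h5 := xr_nonneg U par b c (al s (k + 1) ω) k n
        have h6 := xr_le U par b c (al s (k + 1) ω) k n
        have h7 : xr U par b c (al s (k + 1) ω) k n * yv U par b c s k ω n ≤ 1 := by nlinarith [h2.1, h2.2]
        have h8 : 0 ≤ xr U par b c (al s (k + 1) ω) k n * yv U par b c s k ω n := mul_nonneg h5 h2.1
        rw [abs_le]
        constructor <;> linarith)
      (ce Pool.Agent.N539.T.f0 Pool.Agent.N539.T.fd Pool.Agent.N499.T.pl Pool.Agent.N169.T.sz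
        (aw U) (ew U) par b c s (wt U) hpar hc k (reg U par b c s hpar hc k))
    filter_upwards [hbc, ae_succ _ ih] with ω hω1 hω2
    set E := ∑ v ∈ range (k + 1), ew U v with hE
    set Q : ℝ := ∏ v ∈ range (k + 1), 1 / (ex par c v) ^ (ew U v) with hQ
    have hQ0 : 0 < Q := Finset.prod_pos fun v _ => by
      have := ex_pos par c hc v
      positivity
    have h1 : Tendsto (fun N : ℕ => (∑ n ∈ Icc 1 N, xr U par b c (al s (k + 1) ω) k n) * (Real.log N) ^ E / N) atTop (𝓝 Q) := by
      refine hω2.congr fun N => ?_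
      congr 2
      refine Finset.sum_congr rfl fun n _ => ?_
      exact xr_congr _ _ _ _ _ _ _ _ fun j hj => al_cast ω j hj
    have h2 : Tendsto (fun n : ℕ => yv U par b c s k ω n * (ex par c (k + 1) * Real.log n) ^ (ew U (k + 1))) atTop (𝓝 1) := by
      have h3 : Tendsto (fun n : ℕ => (ex par c (k + 1) * Real.log n) /
          Real.log (al s (k + 1) ω k * (nd par b c (al s (k + 1) ω) n (par k) : ℝ) ^ (c k))) atTop (𝓝 1) := by
        have h4 : Tendsto (fun n : ℕ => Real.log (al s (k + 1) ω k * (nd par b c (al s (k + 1) ω) n (par k) : ℝ) ^ (c k)) /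
            (ex par c (k + 1) * Real.log n)) atTop (𝓝 1) := by
          have h5 : Tendsto (fun n : ℕ => (Real.log (al s (k + 1) ω k * (nd par b c (al s (k + 1) ω) n (par k) : ℝ) ^ (c k)) -
              ex par c (k + 1) * Real.log n) / (ex par c (k + 1) * Real.log n)) atTop (𝓝 0) := by
            refine squeeze_zero_norm' (a := fun n : ℕ => |B| / (ex par c (k + 1) * Real.log n)) ?_ ?_
            · filter_upwards [eventually_ge_atTop n1, eventually_ge_atTop 2] with n hn hn2'
              have hln : 0 < Real.log (n:ℝ) := Real.log_pos (by exact_mod_cast (by omega : 1 < n))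
              rw [norm_div, Real.norm_eq_abs, Real.norm_of_nonneg (by positivity : 0 ≤ ex par c (k + 1) * Real.log n)]
              exact div_le_div_of_nonneg_right ((hB ω n hn).trans (le_abs_self B)) (by positivity)
            · exact Tendsto.div_atTop tendsto_const_nhds (hl.const_mul_atTop hCw)
          have h6 := h5.add_const 1
          rw [zero_add] at h6
          refine h6.congr' ?_
          filter_upwards [eventually_ge_atTop 2] with n hn2'
          have hln : 0 < Real.log (n:ℝ) := Real.log_pos (by exact_mod_cast (by omega : 1 < n))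
          field_simp
          ring
        have h7 := h4.inv₀ one_ne_zero
        rw [inv_one] at h7
        exact h7.congr fun n => by rw [inv_div]
      have h8 := h3.pow (ew U (k + 1))
      rw [one_pow] at h8
      refine h8.congr fun n => ?_
      unfold yv
      rw [div_pow, one_div, inv_mul_eq_div]
    have h9 := Pool.Agent.N901.T.su (fun n => xr U par b c (al s (k + 1) ω) k n) (fun n => yv U par b c s k ω n)
      E (ew U (k + 1)) (ex par c (k + 1)) Q (fun n => xr_nonneg _ _ _ _ _ _ _) (fun n => xr_le _ _ _ _ _ _ _)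
      hCw hQ0 h1 h2
    have h10 := hω1 (E + ew U (k + 1))
    have h11 : Tendsto (fun N : ℕ => (∑ n ∈ Icc 1 N, (xr U par b c (al s (k + 1) ω) (k + 1) n -
        xr U par b c (al s (k + 1) ω) k n * yv U par b c s k ω n)) * (Real.log N) ^ (E + ew U (k + 1)) / N) atTop (𝓝 0) := by
      refine squeeze_zero_norm' ?_ h10
      filter_upwards [eventually_ge_atTop 1] with N hN
      have hl0 : 0 ≤ Real.log (N:ℝ) := Real.log_nonneg (by exact_mod_cast hN)
      have e1 : ∑ n ∈ Icc 1 N, CW (aw U) (ew U) par b c s k ω n = ((∑ n ∈ Icc 1 N,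
          (xr U par b c (al s (k + 1) ω) (k + 1) n - xr U par b c (al s (k + 1) ω) k n * yv U par b c s k ω n) : ℝ) : ℂ) := by
        rw [Complex.ofReal_sum]
        exact Finset.sum_congr rfl fun n _ => CW_eq U ω n
      rw [e1, Complex.norm_real, norm_div, norm_mul, Real.norm_of_nonneg (pow_nonneg hl0 _),
        Real.norm_of_nonneg (Nat.cast_nonneg N)]
      apply le_of_eq
      ring
    have h12 := h9.add h11
    rw [add_zero] at h12
    have e2 : ∑ v ∈ range (k + 1 + 1), ew U v = E + ew U (k + 1) := Finset.sum_range_succ _ _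
    have e3 : ∏ v ∈ range (k + 1 + 1), 1 / (ex par c v) ^ (ew U v) = Q / ex par c (k + 1) ^ (ew U (k + 1)) := by
      rw [Finset.prod_range_succ, ← hQ]
      ring
    rw [e2, e3]
    refine h12.congr fun N => ?_
    rw [Finset.sum_sub_distrib]
    ring

end Pool.Agent.N798.T
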