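import Pool.Agent.N798.T.CE
import Pool.Agent.Cov.PNT

set_option autoImplicit false
set_option maxHeartbeats 1000000

/-! Project T: asymptotics for almost every point of the cube. -/

namespace Pool.Agent.N798.T

open Finset MeasureTheory Filter Topology
open scoped ENNReal
open Pool.Agent.H376R2.MR (er)

/-- the indicator of the primes at the nodes of `U`, the constant `1` at the other nodes -/
noncomputable def aw (U : Finset ℕ) (v : ℕ) (n : ℕ) : ℂ := if v ∈ U then (if n.Prime then 1 else 0) else 1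

/-- the exponent of the logarithm in the density -/
def ew (U : Finset ℕ) (v : ℕ) : ℕ := if v ∈ U then 1 else 0

lemma wt_aw (hwo : S_WO) (hwp : S_WP) (U : Finset ℕ) (v : ℕ) : Wt (aw U v) (ew U v) := by
  by_cases h : v ∈ U
  · have e1 : aw U v = fun n => if n.Prime then 1 else 0 := by
      funext n
      simp only [aw, if_pos h]
    have e2 : ew U v = 1 := by simp only [ew, if_pos h]
    rw [e1, e2]
    exact hwp
  · have e1 : aw U v = fun _ => 1 := by
      funext n
      simp only [aw, if_neg h]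
    have e2 : ew U v = 0 := by simp only [ew, if_neg h]
    rw [e1, e2]
    exact hwo

/-- the real version of the product -/
noncomputable def xr (U : Finset ℕ) (par : ℕ → ℕ) (b : ℕ → ℤ) (c α : ℕ → ℝ) (k n : ℕ) : ℝ :=
  ∏ v ∈ range (k + 1), if v ∈ U then (if (nd par b c α n v).Prime then (1:ℝ) else 0) else 1

lemma xr_zero_or (U : Finset ℕ) (v m : ℕ) :
    0 ≤ (if v ∈ U then (if m.Prime then (1:ℝ) else 0) else 1) ∧
    (if v ∈ U then (if m.Prime then (1:ℝ) else 0) else 1) ≤ 1 := by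
  split_ifs <;> norm_num

lemma xr_nonneg (U : Finset ℕ) (par : ℕ → ℕ) (b : ℕ → ℤ) (c α : ℕ → ℝ) (k n : ℕ) : 0 ≤ xr U par b c α k n :=
  Finset.prod_nonneg fun v _ => (xr_zero_or U v _).1

lemma xr_le (U : Finset ℕ) (par : ℕ → ℕ) (b : ℕ → ℤ) (c α : ℕ → ℝ) (k n : ℕ) : xr U par b c α k n ≤ 1 :=
  Finset.prod_le_one (fun v _ => (xr_zero_or U v _).1) fun v _ => (xr_zero_or U v _).2

lemma xr_cast (U : Finset ℕ) (par : ℕ → ℕ) (b : ℕ → ℤ) (c α : ℕ → ℝ) (k n : ℕ) :
    ((xr U par b c α k n : ℝ) : ℂ) = ∏ v ∈ range (k + 1), aw U v (nd par b c α n v) := by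
  unfold xr aw
  push_cast
  refine Finset.prod_congr rfl fun v _ => ?_
  split_ifs <;> simp

lemma xr_congr (U : Finset ℕ) (par : ℕ → ℕ) (b : ℕ → ℤ) (c α α' : ℕ → ℝ) (k n : ℕ) (h : ∀ j < k, α j = α' j) :
    xr U par b c α k n = xr U par b c α' k n := by
  unfold xr
  refine Finset.prod_congr rfl fun v hv => ?_
  rw [nd_congr par b c α α' n v fun j hj => h j (by have := Finset.mem_range.mp hv; omega)]

lemma xr_succ (U : Finset ℕ) (par : ℕ → ℕ) (b : ℕ → ℤ) (c α : ℕ → ℝ) (k n : ℕ) :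
    xr U par b c α (k + 1) n = xr U par b c α k n *
      (if k + 1 ∈ U then (if (nd par b c α n (k + 1)).Prime then (1:ℝ) else 0) else 1) := by
  unfold xr
  rw [Finset.prod_range_succ]

variable {par : ℕ → ℕ} {b : ℕ → ℤ} {c s : ℕ → ℝ} {k : ℕ}

lemma logx (hsz : S_SZ) (hpar : ∀ j, par j ≤ j) (hc : ∀ j, 0 < c j) :
    ∃ (B : ℝ) (n1 : ℕ), 1 ≤ n1 ∧ ∀ ω : Fin (k + 1) → ℝ, ∀ n : ℕ, n1 ≤ n →
      |Real.log (al s (k + 1) ω k * (nd par b c (al s (k + 1) ω) n (par k) : ℝ) ^ (c k)) -
        ex par c (k + 1) * Real.log n| ≤ B := by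
  set S := ∑ i ∈ range (k + 1), |s i| with hS
  have hS0 : 0 ≤ S := Finset.sum_nonneg fun i _ => abs_nonneg _
  obtain ⟨κ, n0, hκ, hz⟩ := hsz par b c hpar hc (par k) (Real.exp (-S)) (Real.exp (S + 1)) (Real.exp_pos _)
    (Real.one_le_exp (by linarith))
  have hck := hc k
  have hlκ : 0 ≤ Real.log κ := Real.log_nonneg hκ
  refine ⟨S + 1 + c k * Real.log κ, max 1 n0, le_max_left _ _, fun ω n hn => ?_⟩
  have hn1 : 1 ≤ n := (le_max_left _ _).trans hn
  have hn2 : n0 ≤ n := (le_max_right _ _).trans hn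
  have hnpos : (0:ℝ) < n := by exact_mod_cast hn1
  have hκ0 : 0 < κ := by linarith
  obtain ⟨hz1, hz2⟩ := hz (al s (k + 1) ω) (fun j hj => al_bd s (k + 1) ω j (by have := hpar k; omega)) n hn2
  set q : ℕ := nd par b c (al s (k + 1) ω) n (par k) with hq
  have hpw : (0:ℝ) < (n:ℝ) ^ ex par c (par k) := Real.rpow_pos_of_pos hnpos _
  have hqpos : (0:ℝ) < q := lt_of_lt_of_le (by positivity) hz1
  have l1 : -Real.log κ + ex par c (par k) * Real.log n ≤ Real.log q := by
    have := Real.log_le_log (by positivity) hz1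
    rwa [Real.log_mul (by positivity) hpw.ne', Real.log_inv, Real.log_rpow hnpos] at this
  have l2 : Real.log q ≤ Real.log κ + ex par c (par k) * Real.log n := by
    have := Real.log_le_log hqpos hz2
    rwa [Real.log_mul hκ0.ne' hpw.ne', Real.log_rpow hnpos] at this
  obtain ⟨a1, a2⟩ := al_bd s (k + 1) ω k (by omega)
  rw [← hS] at a1 a2
  have hα : 0 < al s (k + 1) ω k := lt_of_lt_of_le (Real.exp_pos _) a1
  have b1 : -S ≤ Real.log (al s (k + 1) ω k) := by
    have := Real.log_le_log (Real.exp_pos _) a1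
    rwa [Real.log_exp] at this
  have b2 : Real.log (al s (k + 1) ω k) ≤ S + 1 := by
    have := Real.log_le_log hα a2
    rwa [Real.log_exp] at this
  rw [Real.log_mul hα.ne' (Real.rpow_pos_of_pos hqpos _).ne', Real.log_rpow hqpos, ex_succ par c k (hpar k)]
  have m3 := mul_le_mul_of_nonneg_left l1 hck.le
  have m4 := mul_le_mul_of_nonneg_left l2 hck.le
  rw [abs_le]
  constructor <;> nlinarith

lemma ae_succ (P : (Fin k → ℝ) → Prop) (h : ∀ᵐ ω ∂(mu k), P ω) :
    ∀ᵐ ω ∂(mu (k + 1)), P (fun j : Fin k => ω j.castSucc) := by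
  unfold mu at h ⊢
  have mp1 := measurePreserving_piFinSuccAbove
      (fun _ : Fin (k + 1) => (volume : Measure ℝ).restrict (Set.Icc (0 : ℝ) 1)) (Fin.last k)
  have mp2 := (measurePreserving_snd (μ := (volume : Measure ℝ).restrict (Set.Icc (0 : ℝ) 1))
    (ν := Measure.pi fun _ : Fin k => (volume : Measure ℝ).restrict (Set.Icc (0 : ℝ) 1)))
  have mp3 := mp2.comp mp1
  have h1 := mp3.quasiMeasurePreserving.ae h
  filter_upwards [h1] with ω hω
  convert hω using 1
  funext j
  simp [MeasurableEquiv.piFinSuccAbove, Fin.init]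

lemma al_cast (ω : Fin (k + 1) → ℝ) (j : ℕ) (hj : j < k) :
    al s k (fun i : Fin k => ω i.castSucc) j = al s (k + 1) ω j := by
  unfold al
  rw [dif_pos hj, dif_pos (by omega : j < k + 1)]
  rfl

lemma base_asym (U : Finset ℕ) (par : ℕ → ℕ) (b : ℕ → ℤ) (c α : ℕ → ℝ) :
    Tendsto (fun N : ℕ => (∑ n ∈ Icc 1 N, xr U par b c α 0 n) * (Real.log N) ^ (∑ v ∈ range 1, ew U v) / N)
      atTop (𝓝 (∏ v ∈ range 1, 1 / (ex par c v) ^ (ew U v))) := by
  have e0 : ∀ n, xr U par b c α 0 n = if 0 ∈ U then (if n.Prime then (1:ℝ) else 0) else 1 := by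
    intro n
    unfold xr
    rw [zero_add, Finset.prod_range_one, nd_zero]
  simp only [Finset.prod_range_one, Finset.sum_range_one, e0, ex_zero, one_pow, div_one]
  by_cases h : 0 ∈ U
  · simp only [if_pos h, ew, pow_one]
    have h1 := Pool.Agent.Cov.PNT.pi_tendsto
    have h2 := h1.comp (tendsto_natCast_atTop_atTop (R := ℝ))
    refine h2.congr fun N => ?_
    simp only [Function.comp, Nat.floor_natCast]
    congr 2
    rw [Finset.sum_ite, Finset.sum_const_zero, add_zero, Finset.sum_const, nsmul_eq_mul, mul_one,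
      Nat.primeCounting, Nat.primeCounting', Nat.count_eq_card_filter_range]
    congr 2
    ext p
    simp only [Finset.mem_filter, Finset.mem_range, Finset.mem_Icc]
    constructor
    · rintro ⟨h3, h4⟩
      exact ⟨⟨h4.one_lt.le, by omega⟩, h4⟩
    · rintro ⟨h3, h4⟩
      exact ⟨by omega, h4⟩
  · simp only [if_neg h, ew, pow_zero, mul_one]
    refine (tendsto_const_nhds (x := (1:ℝ))).congr' ?_
    filter_upwards [eventually_ge_atTop 1] with N hN
    rw [Finset.sum_const, Nat.card_Icc, nsmul_eq_mul, mul_one, Nat.add_sub_cancel]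
    rw [div_self]
    exact_mod_cast (by omega : N ≠ 0)

end Pool.Agent.N798.T
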