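import Pool.Agent.N798.T.RS3

set_option autoImplicit false
set_option maxHeartbeats 1000000

/-! Project T: the centred sums. -/

namespace Pool.Agent.N798.T

open Finset MeasureTheory Filter Topology
open scoped ENNReal
open Pool.Agent.H376R2.MR (er)

variable {a : ℕ → ℕ → ℂ} {e : ℕ → ℕ} {par : ℕ → ℕ} {b : ℕ → ℤ} {c s : ℕ → ℝ} {k : ℕ}

lemma CW_snoc (hpar : ∀ j, par j ≤ j) (ω : Fin k → ℝ) (u : ℝ) (hu : u ∈ Set.Icc (0:ℝ) 1) (n : ℕ)
    (hq : 0 < nd par b c (al s k ω) n (par k)) :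
    CW a e par b c s k (Fin.snoc ω u : Fin (k + 1) → ℝ) n = TW a par b c s k ω n (fun _ => 0) *
      (a (k + 1) (vl (b k) (Real.exp (u + ph par b c s k ω n))) -
        ((1 / (u + ph par b c s k ω n) ^ (e (k + 1)) : ℝ) : ℂ)) := by
  unfold CW TW
  have hq' : (0:ℝ) < (nd par b c (al s k ω) n (par k) : ℝ) := by exact_mod_cast hq
  have h1 : Real.exp (s k + u) * (nd par b c (al s k ω) n (par k) : ℝ) ^ (c k) =
      Real.exp (u + ph par b c s k ω n) := by
    rw [Real.rpow_def_of_pos hq', ← Real.exp_add]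
    unfold ph
    congr 1
    ring
  rw [nd_new _ _ _ (hpar k), clamp_id hu, al_new, clamp_id hu, nd_old _ _ _ _ _ _ _ (hpar k), h1, Real.log_exp]
  congr 1
  refine Finset.prod_congr rfl fun v hv => ?_
  rw [nd_old _ _ _ _ _ _ _ (by have := Finset.mem_range.mp hv; omega), er_zero_left, mul_one]

lemma CW_meas (n : ℕ) : Measurable fun ω => CW a e par b c s k ω n := by
  unfold CW
  refine (Finset.measurable_fun_prod _ fun v _ => ?_).mul (Measurable.sub ?_ ?_)
  · exact (measurable_of_countable (a v)).comp (nd_meas par b c n v)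
  · exact (measurable_of_countable (a (k + 1))).comp (nd_meas par b c n (k + 1))
  · refine Complex.measurable_ofReal.comp (Measurable.const_div (Measurable.pow_const ?_ _) 1)
    refine Real.measurable_log.comp ((al_meas k).mul ?_)
    have h1 : Measurable fun m : ℕ => ((m : ℝ) ^ (c k)) := measurable_of_countable _
    exact h1.comp (nd_meas par b c n (par k))

theorem ce (hf0 : S_F0) (hfd : S_FD) (hpl : S_PL) (hsz : S_SZ) : S_CE := by
  intro a e par b c s hW hpar hc k hReg K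
  obtain ⟨y0, R, n0, hR, hn0, hwin⟩ := window (b := b) (s := s) (k := k) hsz hpar hc
  set Cw := ex par c (k + 1) with hCw'
  have hCw : 0 < Cw := ex_pos par c hc (k + 1)
  set A2 := ⌈2 * Cw + 1⌉₊ with hA2'
  have hA2 : 2 * Cw + 1 ≤ (A2 : ℝ) := Nat.le_ceil _
  set A4 := ⌈c k⌉₊ with hA4'
  have hA4 : c k ≤ (A4 : ℝ) := Nat.le_ceil _
  obtain ⟨K1, D1, hD1, hR1⟩ := hReg (A2 + A4) K
  obtain ⟨CF, hF⟩ := hf0 (a (k + 1)) (e (k + 1)) (hW _) (b k) (K1 + K) (K1 + 1) R hR
  obtain ⟨N0, hN02, hev⟩ := evN Cw y0 ((2 / Cw) ^ (K1 + 1) / Cw) K hCw n0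
  set W : ℝ := 2 * (2 * (Real.exp (y0 + R) + 1) + 4) ^ 2 with hWdef
  set D := 2 / Cw * CF ^ 2 * (2 / Cw) ^ (K1 + K) + W + 4 * R * D1 with hD
  have hD0 : 0 ≤ D := by positivity
  refine ⟨D, N0, hD0, hN02, fun N N' hge hNN hN' => ?_⟩
  have hN : 2 ≤ N := hN02.trans hge
  have hNr : (1:ℝ) ≤ N := by exact_mod_cast (by omega : 1 ≤ N)
  have hN0r : (0:ℝ) < N := by linarith
  have hlog : 0 < Real.log N := Real.log_pos (by exact_mod_cast (by omega : 1 < N))
  obtain ⟨h0, hY1, hY2, hY3, hl2, hlX, hlK⟩ := hev N hge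
  set l := Real.log (N:ℝ) with hl
  set Y := Cw * l + y0 with hY
  have hYpos : 0 < Y := by linarith
  have hmeas : Measurable fun ω : Fin (k + 1) → ℝ => ‖∑ n ∈ Ioc N N', CW a e par b c s k ω n‖ₑ ^ 2 :=
    (Finset.measurable_fun_sum _ fun n _ => CW_meas n).enorm.pow_const 2
  rw [lint_succ _ hmeas]
  set h : ℝ → ℂ := fun y => a (k + 1) (vl (b k) (Real.exp y)) - ((1 / y ^ (e (k + 1)) : ℝ) : ℂ) with hh
  have hhm : Measurable h := by
    refine Measurable.sub ?_ ?_
    · exact (measurable_of_countable (a (k + 1))).comp ((vl_meas _).comp Real.measurable_exp)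
    · exact Complex.measurable_ofReal.comp (Measurable.const_div (measurable_id.pow_const _) 1)
  have hh1 : ∀ y ∈ Set.Icc Y (Y + R), ‖h y‖ ≤ 2 := by
    intro y hy
    have hy1 : 1 ≤ y := hY1.trans hy.1
    simp only [hh]
    refine (norm_sub_le _ _).trans ?_
    have h2 : ‖((1 / y ^ (e (k + 1)) : ℝ) : ℂ)‖ ≤ 1 := by
      rw [Complex.norm_real, Real.norm_of_nonneg (by positivity), div_le_one (by positivity)]
      exact one_le_pow₀ hy1
    linarith [(hW (k + 1)).le_one (vl (b k) (Real.exp y))]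
  have hEq : ∀ ω : Fin k → ℝ, ∫⁻ u in Set.Icc (0:ℝ) 1,
      ‖∑ n ∈ Ioc N N', CW a e par b c s k (Fin.snoc ω u : Fin (k + 1) → ℝ) n‖ₑ ^ 2 =
      ∫⁻ u in Set.Icc (0:ℝ) 1, ‖∑ n ∈ Ioc N N', TW a par b c s k ω n (fun _ => 0) *
        h (u + ph par b c s k ω n)‖ₑ ^ 2 := by
    intro ω
    refine setLIntegral_congr_fun measurableSet_Icc fun u hu => ?_
    congr 2
    refine Finset.sum_congr rfl fun n hn => ?_
    exact CW_snoc hpar ω u hu n (hwin N N' ω h0 hN' n hn).1
  rw [lintegral_congr hEq]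
  set V := 2 * (Real.exp (Y + R) + 1) + 4 with hV
  have hV0 : 0 ≤ V := by positivity
  have hTp : (1:ℝ) ≤ (N:ℝ) ^ A2 := one_le_pow₀ hNr
  have hcore := core (a := a) (b := b) (s := s) (k := k) hpl (fun v n => (hW v).le_one n) (hpar k) (fun _ => 0) N N' hN'
    h hhm Y R hR hh1 (fun ω n hn u hu => (hwin N N' ω h0 hN' n hn).2 u hu)
    V hV0 (fun η hη => by
      have h1 := (hfd (a (k + 1)) (b k) (e (k + 1)) (hW _).le_one Y (Y + R) 0 η hY1 (by linarith) hη).2
      exact h1)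
    ((N:ℝ) ^ A2) (|CF| / Y ^ (K1 + K)) (D1 * (N:ℝ) ^ 2 / l ^ K) (l ^ K1) 0 Cw hCw hTp
    (by positivity) (by positivity) (by positivity) ?_ ?_
  · refine hcore.trans (ENNReal.ofReal_le_ofReal ?_)
    exact fin_bd (CF := CF) (D1 := D1) (V := V) (T := (N:ℝ) ^ A2) (K := K) (K1 := K1) hCw hR hl2 hNr hY1 hY2 hlK rfl rfl rfl
      hV0 W (VT_bd hNr hCw hA2 hV) (by positivity)
  · intro η hηT hηL
    have hη1 : |η| ≤ Y ^ (K1 + 1) := by
      rw [zero_add, abs_mul, abs_of_pos hCw] at hηL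
      have h1 : |η| ≤ l ^ K1 / Cw := by
        rw [le_div_iff₀ hCw, mul_comm]
        exact hηL
      refine h1.trans ?_
      have h2 : (Cw / 2 * l) ^ (K1 + 1) ≤ Y ^ (K1 + 1) := pow_le_pow_left₀ (by positivity) hY2 _
      refine le_trans ?_ h2
      rw [mul_pow, pow_succ l K1]
      have h3 : 0 < (Cw / 2) ^ (K1 + 1) := by positivity
      have h4 := mul_le_mul_of_nonneg_left hlX h3.le
      have h5 : (Cw / 2) ^ (K1 + 1) * ((2 / Cw) ^ (K1 + 1) / Cw) = 1 / Cw := by
        rw [← mul_div_assoc, ← mul_pow]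
        congr 1
        have : Cw / 2 * (2 / Cw) = 1 := by field_simp
        rw [this, one_pow]
      rw [h5] at h4
      have h6 : 0 < l ^ K1 := by positivity
      have h7 := mul_le_mul_of_nonneg_left h4 h6.le
      calc l ^ K1 / Cw = l ^ K1 * (1 / Cw) := by ring
        _ ≤ l ^ K1 * ((Cw / 2) ^ (K1 + 1) * l) := h7
        _ = _ := by ring
    have h1 := hF Y Y (Y + R) η hY1 le_rfl (by linarith) le_rfl hη1
    refine h1.trans ?_
    gcongr
    exact le_abs_self _
  · intro η hηT hηL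
    have hpk : par k ∈ range (k + 1) := Finset.mem_range.mpr (by have := hpar k; omega)
    have hsum : ∑ v ∈ range (k + 1), ex par c v *
        Function.update (fun _ => (0:ℝ)) (par k) ((fun _ => (0:ℝ)) (par k) + c k * η) v = 0 + Cw * η := by
      rw [← Finset.add_sum_erase _ _ hpk, Function.update_self]
      have : ∑ x ∈ (range (k + 1)).erase (par k), ex par c x *
          Function.update (fun _ => (0:ℝ)) (par k) ((fun _ => (0:ℝ)) (par k) + c k * η) x = 0 := by
        refine Finset.sum_eq_zero fun x hx => ?_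
        rw [Function.update_of_ne (Finset.ne_of_mem_erase hx), mul_zero]
      rw [this, hCw', ex_succ par c k (hpar k)]
      ring
    refine hR1 N N' _ hN hNN hN' (fun v hv => ?_) (by rw [hsum]; exact hηL)
    have hck := hc k
    by_cases hvp : v = par k
    · rw [hvp, Function.update_self, zero_add, abs_mul, abs_of_pos hck, pow_add, mul_comm]
      refine mul_le_mul hηT ?_ hck.le (by positivity)
      refine hA4.trans ?_
      have h1 : (A4:ℝ) ≤ (2:ℝ) ^ A4 := by exact_mod_cast Nat.lt_two_pow_self.le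
      exact h1.trans (pow_le_pow_left₀ (by norm_num) (by exact_mod_cast hN) _)
    · rw [Function.update_of_ne hvp, abs_zero]
      positivity

end Pool.Agent.N798.T
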