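import Pool.Agent.N798.T.Bas

set_option autoImplicit false

/-! Project T: the Plancherel step for the product of the weights over the nodes. -/

namespace Pool.Agent.N798.T

open Finset MeasureTheory Filter Topology
open scoped ENNReal
open Pool.Agent.H376R2.MR (er)

lemma er_norm (x y : ℝ) : ‖er x y‖ = 1 := by
  unfold er
  exact Complex.norm_exp_ofReal_mul_I _

lemma er_mul_add (x y z : ℝ) : er (x + y) z = er x z * er y z := by
  unfold er
  rw [← Complex.exp_add]
  congr 1
  push_cast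
  ring

lemma er_shift (x y z : ℝ) : er x (y + z) = er x y * er x z := by
  unfold er
  rw [← Complex.exp_add]
  congr 1
  push_cast
  ring

lemma er_scale (x y z : ℝ) : er x (y * z) = er (x * y) z := by
  unfold er
  congr 2
  push_cast
  ring

lemma er_meas (x : ℝ) : Measurable fun y => er x y := by
  unfold er
  fun_prop

lemma er_zero_left (y : ℝ) : er 0 y = 1 := by
  unfold er
  simp

variable {a : ℕ → ℕ → ℂ} {par : ℕ → ℕ} {b : ℕ → ℤ} {c s : ℕ → ℝ} {k : ℕ}

lemma TW_meas (n : ℕ) (τ : ℕ → ℝ) : Measurable fun ω => TW a par b c s k ω n τ := by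
  unfold TW
  refine Finset.measurable_prod _ fun v _ => ?_
  have h1 : Measurable fun m : ℕ => a v m * er (τ v) (Real.log (m : ℝ)) := measurable_of_countable _
  exact h1.comp (nd_meas par b c n v)

lemma TW_le (hw : ∀ v n, ‖a v n‖ ≤ 1) (ω : Fin k → ℝ) (n : ℕ) (τ : ℕ → ℝ) : ‖TW a par b c s k ω n τ‖ ≤ 1 := by
  unfold TW
  rw [norm_prod]
  refine Finset.prod_le_one (fun _ _ => norm_nonneg _) fun v _ => ?_
  rw [norm_mul, er_norm, mul_one]
  exact hw _ _

lemma TW_update (ω : Fin k → ℝ) (n : ℕ) (τ : ℕ → ℝ) (p : ℕ) (hp : p ≤ k) (δ : ℝ) :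
    TW a par b c s k ω n (Function.update τ p (τ p + δ)) =
      TW a par b c s k ω n τ * er δ (Real.log (nd par b c (al s k ω) n p)) := by
  unfold TW
  have hm : p ∈ range (k + 1) := Finset.mem_range.mpr (by omega)
  rw [← Finset.mul_prod_erase _ _ hm, ← Finset.mul_prod_erase (range (k + 1))
    (fun v => a v (nd par b c (al s k ω) n v) * er (τ v) (Real.log (nd par b c (al s k ω) n v))) hm]
  rw [Function.update_self, er_mul_add]
  have : ∏ x ∈ (range (k + 1)).erase p, a x (nd par b c (al s k ω) n x) *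
      er (Function.update τ p (τ p + δ) x) (Real.log (nd par b c (al s k ω) n x)) =
      ∏ x ∈ (range (k + 1)).erase p, a x (nd par b c (al s k ω) n x) *
      er (τ x) (Real.log (nd par b c (al s k ω) n x)) := by
    refine Finset.prod_congr rfl fun x hx => ?_
    rw [Function.update_of_ne (Finset.ne_of_mem_erase hx)]
  rw [this]
  ring

/-- the phases -/
noncomputable def ph (par : ℕ → ℕ) (b : ℕ → ℤ) (c s : ℕ → ℝ) (k : ℕ) (ω : Fin k → ℝ) (n : ℕ) : ℝ :=
  s k + c k * Real.log (nd par b c (al s k ω) n (par k))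

lemma ph_meas (n : ℕ) : Measurable fun ω => ph par b c s k ω n := by
  unfold ph
  have h1 : Measurable fun m : ℕ => s k + c k * Real.log (m : ℝ) := measurable_of_countable _
  exact h1.comp (nd_meas par b c n (par k))

lemma core (hpl : S_PL) (hw : ∀ v n, ‖a v n‖ ≤ 1) (hpar : par k ≤ k) (τ : ℕ → ℝ) (N N' : ℕ) (hN' : N' ≤ 2 * N)
    (h : ℝ → ℂ) (hh : Measurable h) (Y R : ℝ) (hR : 0 ≤ R) (hb : ∀ y ∈ Set.Icc Y (Y + R), ‖h y‖ ≤ 2)
    (hwin : ∀ ω : Fin k → ℝ, ∀ n ∈ Ioc N N', ∀ u ∈ Set.Icc (0:ℝ) 1, u + ph par b c s k ω n ∈ Set.Icc Y (Y + R))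
    (V : ℝ) (hV0 : 0 ≤ V) (hV : ∀ η : ℝ, 0 < |η| → ‖∫ y in Y..(Y + R), h y * er (-η) y‖ ≤ V / |η|)
    (T κ S L Told Cw : ℝ) (hCw : 0 < Cw) (hT : 1 ≤ T) (hκ : 0 ≤ κ) (hS : 0 ≤ S) (hL : 0 ≤ L)
    (hI : ∀ η : ℝ, |η| ≤ T → |Told + Cw * η| ≤ L → ‖∫ y in Y..(Y + R), h y * er (-η) y‖ ≤ κ)
    (hO : ∀ η : ℝ, |η| ≤ T → L ≤ |Told + Cw * η| →
      ∫⁻ ω, ‖∑ n ∈ Ioc N N', TW a par b c s k ω n (Function.update τ (par k) (τ (par k) + c k * η))‖ₑ ^ 2 ∂(mu k) ≤
        ENNReal.ofReal S) :
    ∫⁻ ω, (∫⁻ u in Set.Icc (0:ℝ) 1, ‖∑ n ∈ Ioc N N', TW a par b c s k ω n τ * h (u + ph par b c s k ω n)‖ₑ ^ 2)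
      ∂(mu k) ≤ ENNReal.ofReal (((2 * L / Cw) * κ ^ 2 + 2 * V ^ 2 / T) * (N : ℝ) ^ 2 + 4 * R * S) := by
  set H : ℝ → ℂ := (Set.Icc Y (Y + R)).indicator h with hH
  have hYR : Y ≤ Y + R := by linarith
  have hint : ∀ η : ℝ, ∫ y, H y * er (-η) y = ∫ y in Y..(Y + R), h y * er (-η) y := by
    intro η
    rw [intervalIntegral.integral_of_le hYR, ← integral_Icc_eq_integral_Ioc, ← integral_indicator measurableSet_Icc]
    congr 1
    funext y
    simp only [hH, Set.indicator]
    split_ifs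
    · rfl
    · rw [zero_mul]
  have h1 := hpl (Fin k → ℝ) (mu k) (Ioc N N') (fun ω n => TW a par b c s k ω n τ)
    (fun ω n => ph par b c s k ω n) (fun n => TW_meas n τ) (fun n => ph_meas n) (fun ω n => TW_le hw ω n τ)
    H (hh.indicator measurableSet_Icc) (by
      intro y
      simp only [hH, Set.indicator]
      split_ifs with hy
      · exact hb y hy
      · rw [norm_zero]; norm_num) Y R hR (by
      intro y hy
      simp only [hH, Set.indicator, if_neg hy]) V hV0 (by
      intro η hη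
      rw [hint]
      exact hV η hη) T κ S (-Told / Cw - L / Cw) (-Told / Cw + L / Cw) hT hκ hS (by
        have : 0 ≤ L / Cw := by positivity
        linarith) (by
      intro η hη hηT
      rw [hint]
      refine hI η hηT ?_
      obtain ⟨h2, h3⟩ := hη
      rw [← sub_div, div_le_iff₀ hCw] at h2
      rw [← add_div, le_div_iff₀ hCw] at h3
      rw [abs_le]
      constructor <;> nlinarith) (by
      intro η hηT hη
      have h2 : L ≤ |Told + Cw * η| := by
        by_contra hlt
        push Not at hlt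
        apply hη
        rw [abs_lt] at hlt
        constructor
        · rw [← sub_div, div_le_iff₀ hCw]; linarith [hlt.1]
        · rw [← add_div, le_div_iff₀ hCw]; linarith [hlt.2]
      refine le_trans (le_of_eq ?_) (hO η hηT h2)
      refine lintegral_congr fun ω => ?_
      have h3 : ∑ n ∈ Ioc N N', TW a par b c s k ω n τ * er η (ph par b c s k ω n) =
          er η (s k) * ∑ n ∈ Ioc N N', TW a par b c s k ω n (Function.update τ (par k) (τ (par k) + c k * η)) := by
        rw [Finset.mul_sum]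
        refine Finset.sum_congr rfl fun n _ => ?_
        rw [TW_update _ _ _ _ hpar, ph, er_shift, er_scale, mul_comm η (c k)]
        ring
      rw [h3, enorm_mul]
      have h4 : ‖er η (s k)‖ₑ = 1 := by
        rw [← ofReal_norm, er_norm, ENNReal.ofReal_one]
      rw [h4, one_mul])
  refine le_trans (lintegral_mono fun ω => ?_) (h1.trans ?_)
  · refine le_trans (le_of_eq ?_) (setLIntegral_le_lintegral (Set.Icc (0:ℝ) 1) _)
    refine setLIntegral_congr_fun measurableSet_Icc fun u hu => ?_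
    congr 2
    refine Finset.sum_congr rfl fun n hn => ?_
    rw [hH, Set.indicator_of_mem (hwin ω n hn u hu)]
  · apply ENNReal.ofReal_le_ofReal
    have e1 : (mu k).real Set.univ = 1 := by simp
    rw [e1, mul_one]
    have e2 : -Told / Cw + L / Cw - (-Told / Cw - L / Cw) = 2 * L / Cw := by ring
    rw [e2]
    have e3 : ((Ioc N N').card : ℝ) ≤ N := by
      rw [Nat.card_Ioc]
      exact_mod_cast (by omega : N' - N ≤ N)
    have e4 : ((Ioc N N').card : ℝ) ^ 2 ≤ (N : ℝ) ^ 2 := pow_le_pow_left₀ (Nat.cast_nonneg _) e3 2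
    have e5 : 0 ≤ 2 * L / Cw * κ ^ 2 + 2 * V ^ 2 / T := by positivity
    have := mul_le_mul_of_nonneg_left e4 e5
    linarith

end Pool.Agent.N798.T
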