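import Pool.Agent.N798.T.As2

set_option autoImplicit false
set_option maxHeartbeats 1000000

/-! Project T: the final statements. -/

namespace Pool.Agent.N798.T

open Finset MeasureTheory Filter Topology
open scoped ENNReal

/-- a finite family of multipliers, extended by `1` -/
noncomputable def xt {k : ℕ} (α : Fin k → ℝ) (j : ℕ) : ℝ := if h : j < k then α ⟨j, h⟩ else 1

lemma nd_congr2 (par par' : ℕ → ℕ) (b b' : ℕ → ℤ) (c α : ℕ → ℝ) (n v : ℕ) (h : ∀ j < v, par j = par' j)
    (h' : ∀ j < v, b j = b' j) : nd par b c α n v = nd par' b' c α n v := by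
  induction v using Nat.strong_induction_on with
  | _ v ih =>
    rcases v with _ | j
    · rw [nd_zero, nd_zero]
    · rw [nd, nd]
      have e1 := h j (by omega)
      have e2 := h' j (by omega)
      by_cases hp : par j ≤ j
      · rw [dif_pos hp, dif_pos (by rw [← e1]; exact hp), e2, ih (par j) (by omega)
          (fun i hi => h i (by omega)) (fun i hi => h' i (by omega)), e1]
      · rw [dif_neg hp, dif_neg (by rw [← e1]; exact hp)]

lemma ex_congr2 (par par' : ℕ → ℕ) (c : ℕ → ℝ) (v : ℕ) (h : ∀ j < v, par j = par' j) :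
    ex par c v = ex par' c v := by
  induction v using Nat.strong_induction_on with
  | _ v ih =>
    rcases v with _ | j
    · rw [ex_zero, ex_zero]
    · rw [ex, ex]
      have e1 := h j (by omega)
      by_cases hp : par j ≤ j
      · rw [dif_pos hp, dif_pos (by rw [← e1]; exact hp), ih (par j) (by omega) (fun i hi => h i (by omega)), e1]
      · rw [dif_neg hp, dif_neg (by rw [← e1]; exact hp)]

lemma sum_xr (U : Finset ℕ) (par : ℕ → ℕ) (b : ℕ → ℤ) (c α : ℕ → ℝ) (k : ℕ) (hU : U ⊆ range (k + 1)) (N : ℕ) :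
    ∑ n ∈ Icc 1 N, xr U par b c α k n =
      (((Icc 1 N).filter fun n => ∀ v ∈ U, (nd par b c α n v).Prime).card : ℝ) := by
  rw [Finset.card_filter]
  push_cast
  refine Finset.sum_congr rfl fun n _ => ?_
  unfold xr
  split_ifs with h
  · refine Finset.prod_eq_one fun v _ => ?_
    split_ifs with h1 h2
    · rfl
    · exact absurd (h v h1) h2
    · rfl
  · push Not at h
    obtain ⟨v, hv, hnp⟩ := h
    refine Finset.prod_eq_zero (hU hv) ?_
    rw [if_pos hv, if_neg hnp]

theorem cube_fin (U : Finset ℕ) (par : ℕ → ℕ) (b : ℕ → ℤ) (c s : ℕ → ℝ) (hpar : ∀ j, par j ≤ j) (hc : ∀ j, 0 < c j)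
    (k : ℕ) (hU : U ⊆ range (k + 1)) : ∀ᵐ ω ∂(mu k), Tendsto (fun N : ℕ =>
      (((Icc 1 N).filter fun n => ∀ v ∈ U, (nd par b c (xt fun j : Fin k => al s k ω j) n v).Prime).card : ℝ) *
        (∏ v ∈ U, (ex par c v * Real.log N)) / N) atTop (𝓝 1) := by
  filter_upwards [ae_asym U par b c s hpar hc k] with ω hω
  have e1 : ∑ v ∈ range (k + 1), ew U v = U.card := by
    unfold ew
    rw [Finset.sum_ite, Finset.sum_const_zero, add_zero, Finset.sum_const, smul_eq_mul, mul_one,
      Finset.filter_mem_eq_inter, Finset.inter_eq_right.mpr hU]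
  have e2 : ∏ v ∈ range (k + 1), 1 / (ex par c v) ^ (ew U v) = (∏ v ∈ U, ex par c v)⁻¹ := by
    rw [← Finset.prod_inv_distrib, ← Finset.prod_subset hU]
    · refine Finset.prod_congr rfl fun v hv => ?_
      rw [ew, if_pos hv, pow_one, one_div]
    · intro v _ hv
      rw [ew, if_neg hv, pow_zero, div_one]
  rw [e1, e2] at hω
  have hP : 0 < ∏ v ∈ U, ex par c v := Finset.prod_pos fun v _ => ex_pos par c hc v
  have h1 := hω.mul_const (∏ v ∈ U, ex par c v)
  rw [inv_mul_cancel₀ hP.ne'] at h1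
  refine h1.congr fun N => ?_
  have e3 : ∀ n, xr U par b c (al s k ω) k n = xr U par b c (xt fun j : Fin k => al s k ω j) k n := by
    intro n
    refine xr_congr _ _ _ _ _ _ _ _ fun j hj => ?_
    unfold xt
    rw [dif_pos hj]
  rw [Finset.sum_congr rfl fun n _ => e3 n, sum_xr U par b c _ k hU N, Finset.prod_mul_distrib, Finset.prod_const]
  ring

theorem main_fixed (U : Finset ℕ) (par : ℕ → ℕ) (b : ℕ → ℤ) (c : ℕ → ℝ) (hpar : ∀ j, par j ≤ j) (hc : ∀ j, 0 < c j)
    (k : ℕ) (hU : U ⊆ range (k + 1)) :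
    ∀ᵐ α ∂((volume : Measure (Fin k → ℝ)).restrict {α | ∀ i, 0 < α i}), Tendsto (fun N : ℕ =>
      (((Icc 1 N).filter fun n => ∀ v ∈ U, (nd par b c (xt α) n v).Prime).card : ℝ) *
        (∏ v ∈ U, (ex par c v * Real.log N)) / N) atTop (𝓝 1) :=
  Pool.Agent.N262.T.cu k _ fun s => cube_fin U par b c s hpar hc k hU

theorem main_all (c : ℕ → ℝ) (hc : ∀ j, 0 < c j) (k : ℕ) :
    ∀ᵐ α ∂((volume : Measure (Fin k → ℝ)).restrict {α | ∀ i, 0 < α i}),
      ∀ (par : ℕ → ℕ) (b : ℕ → ℤ) (U : Finset ℕ), (∀ j, par j ≤ j) → U ⊆ range (k + 1) → Tendsto (fun N : ℕ =>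
        (((Icc 1 N).filter fun n => ∀ v ∈ U, (nd par b c (xt α) n v).Prime).card : ℝ) *
          (∏ v ∈ U, (ex par c v * Real.log N)) / N) atTop (𝓝 1) := by
  have h1 : ∀ᵐ α ∂((volume : Measure (Fin k → ℝ)).restrict {α | ∀ i, 0 < α i}),
      ∀ (p : Fin k → ℕ) (z : Fin k → ℤ) (U : Finset ℕ), U ⊆ range (k + 1) → Tendsto (fun N : ℕ =>
        (((Icc 1 N).filter fun n => ∀ v ∈ U, (nd (fun j => if h : j < k then min (p ⟨j, h⟩) j else 0)
          (fun j => if h : j < k then z ⟨j, h⟩ else 0) c (xt α) n v).Prime).card : ℝ) *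
          (∏ v ∈ U, (ex (fun j => if h : j < k then min (p ⟨j, h⟩) j else 0) c v * Real.log N)) / N) atTop (𝓝 1) := by
    rw [ae_all_iff]
    intro p
    rw [ae_all_iff]
    intro z
    rw [ae_all_iff]
    intro U
    by_cases hU : U ⊆ range (k + 1)
    · have h2 := main_fixed U (fun j => if h : j < k then min (p ⟨j, h⟩) j else 0)
        (fun j => if h : j < k then z ⟨j, h⟩ else 0) c (fun j => by
          split_ifs
          · exact min_le_right _ _
          · exact Nat.zero_le _) hc k hU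
      filter_upwards [h2] with α hα _ using hα
    · exact Eventually.of_forall fun α h => absurd h hU
  filter_upwards [h1] with α hα par b U hpar hU
  have h2 := hα (fun j => par j) (fun j => b j) U hU
  refine h2.congr fun N => ?_
  have e1 : ∀ v ∈ U, ∀ n, nd (fun j => if h : j < k then min (par (⟨j, h⟩ : Fin k)) j else 0)
      (fun j => if h : j < k then b (⟨j, h⟩ : Fin k) else 0) c (xt α) n v = nd par b c (xt α) n v := by
    intro v hv n
    have hvk := Finset.mem_range.mp (hU hv)
    refine nd_congr2 _ _ _ _ _ _ _ _ (fun j hj => ?_) fun j hj => ?_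
    · dsimp only
      rw [dif_pos (by omega : j < k), min_eq_left (hpar j)]
    · dsimp only
      rw [dif_pos (by omega : j < k)]
  have e2 : ∀ v ∈ U, ex (fun j => if h : j < k then min (par (⟨j, h⟩ : Fin k)) j else 0) c v = ex par c v := by
    intro v hv
    have hvk := Finset.mem_range.mp (hU hv)
    refine ex_congr2 _ _ _ _ fun j hj => ?_
    dsimp only
    rw [dif_pos (by omega : j < k), min_eq_left (hpar j)]
  rw [Finset.prod_congr rfl fun v hv => by rw [e2 v hv]]
  congr 4
  refine Finset.filter_congr fun n _ => ?_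
  constructor
  · intro h v hv
    rw [← e1 v hv n]; exact h v hv
  · intro h v hv
    rw [e1 v hv n]; exact h v hv

end Pool.Agent.N798.T
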