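import Pool.Agent.N798.T.Core

set_option autoImplicit false

/-! Project T: one more node, and the centred sums. -/

namespace Pool.Agent.N798.T

open Finset MeasureTheory Filter Topology
open scoped ENNReal
open Pool.Agent.H376R2.MR (er)

lemma al_bd (s : ℕ → ℝ) (k : ℕ) (ω : Fin k → ℝ) (j : ℕ) (hj : j < k) :
    Real.exp (-(∑ i ∈ range k, |s i|)) ≤ al s k ω j ∧ al s k ω j ≤ Real.exp ((∑ i ∈ range k, |s i|) + 1) := by
  unfold al
  rw [dif_pos hj]
  have h1 : |s j| ≤ ∑ i ∈ range k, |s i| :=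
    Finset.single_le_sum (f := fun i => |s i|) (fun i _ => abs_nonneg _) (Finset.mem_range.mpr hj)
  have h2 := neg_abs_le (s j)
  have h3 := le_abs_self (s j)
  have h4 : (0:ℝ) ≤ max 0 (min 1 (ω ⟨j, hj⟩)) := le_max_left _ _
  have h5 : max (0:ℝ) (min 1 (ω ⟨j, hj⟩)) ≤ 1 := max_le zero_le_one (min_le_left _ _)
  constructor <;> apply Real.exp_le_exp.mpr <;> linarith

variable {par : ℕ → ℕ} {b : ℕ → ℤ} {c s : ℕ → ℝ} {k : ℕ}

/-- the window -/
lemma window (hsz : S_SZ) (hpar : ∀ j, par j ≤ j) (hc : ∀ j, 0 < c j) :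
    ∃ (y0 R : ℝ) (n0 : ℕ), 0 ≤ R ∧ 1 ≤ n0 ∧ ∀ (N N' : ℕ) (ω : Fin k → ℝ), n0 ≤ N → N' ≤ 2 * N → ∀ n ∈ Ioc N N',
      0 < nd par b c (al s k ω) n (par k) ∧ ∀ u ∈ Set.Icc (0:ℝ) 1,
        u + ph par b c s k ω n ∈ Set.Icc (ex par c (k + 1) * Real.log N + y0) (ex par c (k + 1) * Real.log N + y0 + R) := by
  obtain ⟨κ, n0, hκ, hz⟩ := hsz par b c hpar hc (par k) (Real.exp (-(∑ i ∈ range k, |s i|)))
    (Real.exp ((∑ i ∈ range k, |s i|) + 1)) (Real.exp_pos _) (by
      apply Real.one_le_exp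
      have : 0 ≤ ∑ i ∈ range k, |s i| := Finset.sum_nonneg fun i _ => abs_nonneg _
      linarith)
  have hex := ex_pos par c hc (par k)
  have hck := hc k
  have hlκ : 0 ≤ Real.log κ := Real.log_nonneg hκ
  have hl2 : 0 ≤ Real.log 2 := Real.log_nonneg (by norm_num)
  have hexs := ex_succ par c k (hpar k)
  refine ⟨s k - c k * Real.log κ, 1 + 2 * (c k * Real.log κ) + ex par c (k + 1) * Real.log 2, max 1 n0, ?_, le_max_left _ _, ?_⟩
  · rw [hexs]
    positivity
  intro N N' ω hN hN' n hn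
  obtain ⟨hn1, hn2⟩ := Finset.mem_Ioc.mp hn
  have hN1 : 1 ≤ N := (le_max_left _ _).trans hN
  have hN2 : n0 ≤ N := (le_max_right _ _).trans hN
  have hNpos : (0:ℝ) < N := by exact_mod_cast hN1
  have hnpos : (0:ℝ) < n := by exact_mod_cast (by omega : 0 < n)
  obtain ⟨hz1, hz2⟩ := hz (al s k ω) (fun j hj => al_bd s k ω j (lt_of_lt_of_le hj (hpar k))) n (by omega)
  set q : ℕ := nd par b c (al s k ω) n (par k) with hq
  have hκ0 : 0 < κ := by linarith
  have hpw : (0:ℝ) < (n:ℝ) ^ ex par c (par k) := Real.rpow_pos_of_pos hnpos _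
  have hqpos : (0:ℝ) < q := lt_of_lt_of_le (by positivity) hz1
  refine ⟨by exact_mod_cast hqpos, fun u hu => ?_⟩
  have l1 : -Real.log κ + ex par c (par k) * Real.log n ≤ Real.log q := by
    have := Real.log_le_log (by positivity) hz1
    rwa [Real.log_mul (by positivity) hpw.ne', Real.log_inv, Real.log_rpow hnpos] at this
  have l2 : Real.log q ≤ Real.log κ + ex par c (par k) * Real.log n := by
    have := Real.log_le_log hqpos hz2
    rwa [Real.log_mul hκ0.ne' hpw.ne', Real.log_rpow hnpos] at this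
  have l3 : Real.log N ≤ Real.log n := Real.log_le_log hNpos (by exact_mod_cast hn1.le)
  have l4 : Real.log n ≤ Real.log 2 + Real.log N := by
    rw [← Real.log_mul (by norm_num) hNpos.ne']
    exact Real.log_le_log hnpos (by exact_mod_cast (hn2.trans hN'))
  have m1 := mul_le_mul_of_nonneg_left l3 hex.le
  have m2 := mul_le_mul_of_nonneg_left l4 hex.le
  have m3 : c k * (-Real.log κ + ex par c (par k) * Real.log N) ≤ c k * Real.log q :=
    mul_le_mul_of_nonneg_left (by linarith) hck.le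
  have m4 : c k * Real.log q ≤ c k * (Real.log κ + ex par c (par k) * (Real.log 2 + Real.log N)) :=
    mul_le_mul_of_nonneg_left (by linarith) hck.le
  unfold ph
  rw [← hq, hexs]
  constructor
  · nlinarith [hu.1]
  · nlinarith [hu.2]

/-- large `N` -/
lemma evN (Cw y0 X : ℝ) (K : ℕ) (hCw : 0 < Cw) (n0 : ℕ) : ∃ N0 : ℕ, 2 ≤ N0 ∧ ∀ N : ℕ, N0 ≤ N →
    n0 ≤ N ∧ 1 ≤ Cw * Real.log N + y0 ∧ Cw / 2 * Real.log N ≤ Cw * Real.log N + y0 ∧
    Cw * Real.log N + y0 ≤ (Cw + 1) * Real.log N ∧ 2 ≤ Real.log N ∧ X ≤ Real.log N ∧ (Real.log N) ^ K ≤ N := by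
  have hl : Tendsto (fun N : ℕ => Real.log (N:ℝ)) atTop atTop := Real.tendsto_log_atTop.comp tendsto_natCast_atTop_atTop
  have h1 : ∀ᶠ N : ℕ in atTop, (|y0| + 1) * (2 / Cw + 1) + 2 + |X| ≤ Real.log (N:ℝ) := hl.eventually_ge_atTop _
  have h2 : ∀ᶠ N : ℕ in atTop, (Real.log (N:ℝ)) ^ K ≤ N := by
    have h3 : ∀ᶠ x : ℝ in atTop, (Real.log x) ^ K ≤ x := by
      have h4 := (Real.isLittleO_pow_log_id_atTop (n := K)).bound (c := 1) one_pos
      filter_upwards [h4, eventually_ge_atTop 1] with x hx hx1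
      rw [one_mul] at hx
      have h5 : 0 ≤ Real.log x := Real.log_nonneg hx1
      rw [Real.norm_of_nonneg (pow_nonneg h5 K)] at hx
      simpa [abs_of_nonneg (by linarith : (0:ℝ) ≤ x)] using hx
    exact tendsto_natCast_atTop_atTop.eventually h3
  obtain ⟨N0, hN0⟩ := eventually_atTop.mp ((h1.and h2).and (eventually_ge_atTop n0))
  refine ⟨max 2 N0, le_max_left _ _, fun N hN => ?_⟩
  obtain ⟨⟨h3, h4⟩, h5⟩ := hN0 N ((le_max_right _ _).trans hN)
  set l := Real.log (N:ℝ) with hl'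
  have a1 := neg_abs_le y0
  have a2 := le_abs_self y0
  have a3 := le_abs_self X
  have a4 := abs_nonneg y0
  have a5 := abs_nonneg X
  have a6 : 0 < 2 / Cw := by positivity
  have a7 : (|y0| + 1) * (2 / Cw) ≤ l := by nlinarith
  have a8 : |y0| + 1 ≤ Cw / 2 * l := by
    have := mul_le_mul_of_nonneg_left a7 (by positivity : 0 ≤ Cw / 2)
    have e : Cw / 2 * ((|y0| + 1) * (2 / Cw)) = |y0| + 1 := by field_simp
    linarith
  have a9 : |y0| + 1 ≤ l := by nlinarith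
  have a10 : 0 ≤ (|y0| + 1) * (2 / Cw + 1) := by positivity
  refine ⟨h5, ?_, ?_, ?_, ?_, ?_, h4⟩
  · nlinarith
  · nlinarith
  · nlinarith
  · linarith
  · linarith

end Pool.Agent.N798.T
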