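import Pool.Agent.N798.T.RS

set_option autoImplicit false

/-! Project T: one more node, and the centred sums. -/

namespace Pool.Agent.N798.T

open Finset MeasureTheory Filter Topology
open scoped ENNReal
open Pool.Agent.H376R2.MR (er)

variable {a : ℕ → ℕ → ℂ} {par : ℕ → ℕ} {b : ℕ → ℤ} {c s : ℕ → ℝ} {k : ℕ}

lemma TW_succ (hpar : ∀ j, par j ≤ j) (ω : Fin k → ℝ) (u : ℝ) (hu : u ∈ Set.Icc (0:ℝ) 1) (n : ℕ) (τ : ℕ → ℝ)
    (hq : 0 < nd par b c (al s k ω) n (par k)) :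
    TW a par b c s (k + 1) (Fin.snoc ω u : Fin (k + 1) → ℝ) n τ = TW a par b c s k ω n τ *
      (a (k + 1) (vl (b k) (Real.exp (u + ph par b c s k ω n))) *
        er (τ (k + 1)) (Real.log (vl (b k) (Real.exp (u + ph par b c s k ω n))))) := by
  unfold TW
  rw [Finset.prod_range_succ]
  congr 1
  · refine Finset.prod_congr rfl fun v hv => ?_
    rw [nd_old _ _ _ _ _ _ _ (by have := Finset.mem_range.mp hv; omega)]
  · rw [nd_new _ _ _ (hpar k), clamp_id hu]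
    have hq' : (0:ℝ) < (nd par b c (al s k ω) n (par k) : ℝ) := by exact_mod_cast hq
    have : Real.exp (s k + u) * (nd par b c (al s k ω) n (par k) : ℝ) ^ (c k) =
        Real.exp (u + ph par b c s k ω n) := by
      rw [Real.rpow_def_of_pos hq', ← Real.exp_add]
      unfold ph
      congr 1
      ring
    rw [this]

/-- the real-variable estimate at the end -/
lemma fin_bd {Cw y0 R l CF D1 V κ T L S Nr : ℝ} {K K1 : ℕ} (hCw : 0 < Cw) (hR : 0 ≤ R) (hl : 2 ≤ l)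
    (hNr : 1 ≤ Nr) (hY1 : 1 ≤ Cw * l + y0) (hY2 : Cw / 2 * l ≤ Cw * l + y0) (hlK : l ^ K ≤ Nr)
    (hκ : κ = |CF| / (Cw * l + y0) ^ (K1 + K)) (hL : L = l ^ K1) (hS : S = D1 * Nr ^ 2 / l ^ K)
    (hV : 0 ≤ V) (W : ℝ) (hVT : 2 * V ^ 2 / T ≤ W / Nr) (hW : 0 ≤ W) :
    ((2 * L / Cw) * κ ^ 2 + 2 * V ^ 2 / T) * Nr ^ 2 + 4 * R * S ≤
      (2 / Cw * CF ^ 2 * (2 / Cw) ^ (K1 + K) + W + 4 * R * D1) * Nr ^ 2 / l ^ K := by
  have hl0 : 0 < l := by linarith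
  have hlK0 : 0 < l ^ K := pow_pos hl0 K
  have hN0 : 0 < Nr := by linarith
  set Y := Cw * l + y0 with hY
  have hY0 : 0 < Y := by linarith
  have h1 : κ ^ 2 ≤ CF ^ 2 * ((2 / Cw) ^ (K1 + K) / l ^ (K1 + K)) := by
    rw [hκ, div_pow, sq_abs, div_eq_mul_inv]
    refine mul_le_mul_of_nonneg_left ?_ (sq_nonneg _)
    have e1 : Y ^ (K1 + K) ≤ (Y ^ (K1 + K)) ^ 2 := by
      have : 1 ≤ Y ^ (K1 + K) := one_le_pow₀ hY1
      nlinarith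
    have e2 : (Cw / 2 * l) ^ (K1 + K) ≤ Y ^ (K1 + K) := pow_le_pow_left₀ (by positivity) hY2 _
    have e3 : 0 < (Cw / 2 * l) ^ (K1 + K) := by positivity
    have e4 : ((Y ^ (K1 + K)) ^ 2)⁻¹ ≤ ((Cw / 2 * l) ^ (K1 + K))⁻¹ := inv_anti₀ e3 (e2.trans e1)
    refine e4.trans (le_of_eq ?_)
    rw [mul_pow, mul_inv, ← inv_pow]
    congr 2
    field_simp
  have h2 : (2 * L / Cw) * κ ^ 2 ≤ (2 / Cw * CF ^ 2 * (2 / Cw) ^ (K1 + K)) / l ^ K := by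
    have : (2 * L / Cw) * κ ^ 2 ≤ (2 * L / Cw) * (CF ^ 2 * ((2 / Cw) ^ (K1 + K) / l ^ (K1 + K))) := by
      refine mul_le_mul_of_nonneg_left h1 ?_
      rw [hL]; positivity
    refine this.trans (le_of_eq ?_)
    rw [hL, pow_add l K1 K]
    field_simp
  have h3 : 2 * V ^ 2 / T ≤ W / l ^ K := hVT.trans (div_le_div_of_nonneg_left hW hlK0 hlK)
  have h4 : ((2 * L / Cw) * κ ^ 2 + 2 * V ^ 2 / T) * Nr ^ 2 ≤
      ((2 / Cw * CF ^ 2 * (2 / Cw) ^ (K1 + K)) / l ^ K + W / l ^ K) * Nr ^ 2 :=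
    mul_le_mul_of_nonneg_right (add_le_add h2 h3) (sq_nonneg _)
  rw [hS]
  have e5 : (2 / Cw * CF ^ 2 * (2 / Cw) ^ (K1 + K) + W + 4 * R * D1) * Nr ^ 2 / l ^ K =
      ((2 / Cw * CF ^ 2 * (2 / Cw) ^ (K1 + K)) / l ^ K + W / l ^ K) * Nr ^ 2 + 4 * R * (D1 * Nr ^ 2 / l ^ K) := by
    ring
  rw [e5]
  linarith

lemma VT_bd {Cw y0 R Nr V : ℝ} {A2 : ℕ} (hNr : 1 ≤ Nr) (hCw : 0 < Cw) (hA2 : 2 * Cw + 1 ≤ A2)
    (hV : V = 2 * (Real.exp (Cw * Real.log Nr + y0 + R) + 1) + 4) :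
    2 * V ^ 2 / Nr ^ A2 ≤ 2 * (2 * (Real.exp (y0 + R) + 1) + 4) ^ 2 / Nr := by
  have hN0 : 0 < Nr := by linarith
  have e1 : Real.exp (Cw * Real.log Nr + y0 + R) = Real.exp (y0 + R) * Nr ^ Cw := by
    rw [Real.rpow_def_of_pos hN0, ← Real.exp_add]
    congr 1
    ring
  have h1 : (1:ℝ) ≤ Nr ^ Cw := Real.one_le_rpow hNr hCw.le
  have hE := Real.exp_pos (y0 + R)
  have h2 : V ≤ (2 * (Real.exp (y0 + R) + 1) + 4) * Nr ^ Cw := by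
    rw [hV, e1]
    nlinarith
  have hV0 : 0 ≤ V := by
    rw [hV]; positivity
  have h3 : V ^ 2 ≤ (2 * (Real.exp (y0 + R) + 1) + 4) ^ 2 * Nr ^ (2 * Cw) := by
    calc V ^ 2 ≤ ((2 * (Real.exp (y0 + R) + 1) + 4) * Nr ^ Cw) ^ 2 := pow_le_pow_left₀ hV0 h2 2
      _ = _ := by
        rw [mul_pow, ← Real.rpow_natCast (Nr ^ Cw) 2, ← Real.rpow_mul hN0.le]
        congr 2
        push_cast
        ring
  rw [div_le_div_iff₀ (by positivity) hN0]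
  have h4 : Nr ^ (2 * Cw) * Nr ≤ Nr ^ A2 := by
    calc Nr ^ (2 * Cw) * Nr = Nr ^ (2 * Cw + 1) := by rw [Real.rpow_add hN0, Real.rpow_one]
      _ ≤ Nr ^ (A2 : ℝ) := Real.rpow_le_rpow_of_exponent_le hNr hA2
      _ = _ := Real.rpow_natCast _ _
  calc 2 * V ^ 2 * Nr ≤ 2 * ((2 * (Real.exp (y0 + R) + 1) + 4) ^ 2 * Nr ^ (2 * Cw)) * Nr := by
        apply mul_le_mul_of_nonneg_right _ hN0.le
        linarith
    _ = 2 * (2 * (Real.exp (y0 + R) + 1) + 4) ^ 2 * (Nr ^ (2 * Cw) * Nr) := by ring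
    _ ≤ _ := mul_le_mul_of_nonneg_left h4 (by positivity)

end Pool.Agent.N798.T
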