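import Pool.Agent.N798.T.RS2

set_option autoImplicit false
set_option maxHeartbeats 1000000

/-! Project T: one more node. -/

namespace Pool.Agent.N798.T

open Finset MeasureTheory Filter Topology
open scoped ENNReal
open Pool.Agent.H376R2.MR (er)

lemma triv_lint {Ω : Type*} [MeasurableSpace Ω] (m : Measure Ω) [IsProbabilityMeasure m] (g : Ω → ℕ → ℂ) (B : ℝ)
    (hB : 0 ≤ B) (N N' : ℕ) (hN' : N' ≤ 2 * N) (hg : ∀ ω, ∀ n, ‖g ω n‖ ≤ B) :
    ∫⁻ ω, ‖∑ n ∈ Ioc N N', g ω n‖ₑ ^ 2 ∂m ≤ ENNReal.ofReal (B ^ 2 * (N:ℝ) ^ 2) := by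
  have h1 : ∀ ω, ‖∑ n ∈ Ioc N N', g ω n‖ₑ ^ 2 ≤ ENNReal.ofReal (B ^ 2 * (N:ℝ) ^ 2) := by
    intro ω
    rw [← ofReal_norm, ← ENNReal.ofReal_pow (norm_nonneg _)]
    apply ENNReal.ofReal_le_ofReal
    rw [← mul_pow]
    refine pow_le_pow_left₀ (norm_nonneg _) ?_ 2
    refine (norm_sum_le_of_le _ (fun n _ => hg ω n)).trans ?_
    rw [Finset.sum_const, Nat.card_Ioc, nsmul_eq_mul, mul_comm]
    refine mul_le_mul_of_nonneg_left ?_ hB
    exact_mod_cast (by omega : N' - N ≤ N)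
  refine (lintegral_mono h1).trans ?_
  rw [lintegral_const, measure_univ, mul_one]

theorem rs (hft : S_FT) (hfd : S_FD) (hpl : S_PL) (hsz : S_SZ) : S_RS := by
  intro a e par b c s hW hpar hc k hReg A K
  obtain ⟨y0, R, n0, hR, hn0, hwin⟩ := window (b := b) (s := s) (k := k) hsz hpar hc
  set Cw := ex par c (k + 1) with hCw'
  have hCw : 0 < Cw := ex_pos par c hc (k + 1)
  set A2 := ⌈2 * Cw + 1⌉₊ with hA2'
  have hA2 : 2 * Cw + 1 ≤ (A2 : ℝ) := Nat.le_ceil _
  set A4 := ⌈1 + c k⌉₊ with hA4'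
  have hA4 : 1 + c k ≤ (A4 : ℝ) := Nat.le_ceil _
  obtain ⟨K1, D1, hD1, hR1⟩ := hReg (A + A2 + A4) K
  set AF := ⌈2 * ((A:ℝ) + A2) / Cw⌉₊ with hAF'
  have hAF : 2 * ((A:ℝ) + A2) / Cw ≤ (AF : ℝ) := Nat.le_ceil _
  obtain ⟨KF, CF, hF⟩ := hft (a (k + 1)) (e (k + 1)) (hW _) (b k) AF (K1 + K) R hR
  set K' := max K1 KF + 1 with hK'
  obtain ⟨N0, hN02, hev⟩ := evN Cw y0 (2 * Cw * (Cw + 1) ^ KF) K hCw n0
  set W : ℝ := 2 * (2 * (Real.exp (y0 + R) + 1) + 4) ^ 2 with hWdef
  set D := 2 / Cw * CF ^ 2 * (2 / Cw) ^ (K1 + K) + W + 4 * R * D1 with hD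
  have hD0 : 0 ≤ D := by positivity
  refine ⟨K', D + (Real.log N0) ^ K, by positivity, fun N N' τ hN hNN hN' hτ hT => ?_⟩
  have hNr : (1:ℝ) ≤ N := by exact_mod_cast (by omega : 1 ≤ N)
  have hN0r : (0:ℝ) < N := by linarith
  have hlog : 0 < Real.log N := Real.log_pos (by exact_mod_cast (by omega : 1 < N))
  rcases lt_or_ge N N0 with hlt | hge
  · refine (triv_lint _ _ 1 zero_le_one N N' hN' (fun ω n => TW_le (fun v n => (hW v).le_one n) ω n τ)).trans ?_
    apply ENNReal.ofReal_le_ofReal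
    rw [one_pow, one_mul, le_div_iff₀ (pow_pos hlog K), mul_comm]
    refine mul_le_mul_of_nonneg_right ?_ (sq_nonneg _)
    have : (Real.log N) ^ K ≤ (Real.log N0) ^ K :=
      pow_le_pow_left₀ hlog.le (Real.log_le_log hN0r (by exact_mod_cast hlt.le)) K
    linarith
  obtain ⟨h0, hY1, hY2, hY3, hl2, hlX, hlK⟩ := hev N hge
  set l := Real.log (N:ℝ) with hl
  set Y := Cw * l + y0 with hY
  have hYpos : 0 < Y := by linarith
  -- the integral over the last coordinate
  have hmeas : Measurable fun ω : Fin (k + 1) → ℝ => ‖∑ n ∈ Ioc N N', TW a par b c s (k + 1) ω n τ‖ₑ ^ 2 :=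
    (Finset.measurable_fun_sum _ fun n _ => TW_meas n τ).enorm.pow_const 2
  rw [lint_succ _ hmeas]
  set h : ℝ → ℂ := fun y => a (k + 1) (vl (b k) (Real.exp y)) * er (τ (k + 1)) (Real.log (vl (b k) (Real.exp y))) with hh
  have hhm : Measurable h := by
    have h1 : Measurable fun m : ℕ => a (k + 1) m * er (τ (k + 1)) (Real.log (m : ℝ)) := measurable_of_countable _
    exact h1.comp ((vl_meas _).comp Real.measurable_exp)
  have hh1 : ∀ y, ‖h y‖ ≤ 1 := by
    intro y
    simp only [hh]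
    rw [norm_mul, er_norm, mul_one]
    exact (hW _).le_one _
  have hEq : ∀ ω : Fin k → ℝ, ∫⁻ u in Set.Icc (0:ℝ) 1,
      ‖∑ n ∈ Ioc N N', TW a par b c s (k + 1) (Fin.snoc ω u : Fin (k + 1) → ℝ) n τ‖ₑ ^ 2 =
      ∫⁻ u in Set.Icc (0:ℝ) 1, ‖∑ n ∈ Ioc N N', TW a par b c s k ω n τ * h (u + ph par b c s k ω n)‖ₑ ^ 2 := by
    intro ω
    refine setLIntegral_congr_fun measurableSet_Icc fun u hu => ?_
    congr 2
    refine Finset.sum_congr rfl fun n hn => ?_
    exact TW_succ hpar ω u hu n τ (hwin N N' ω h0 hN' n hn).1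
  rw [lintegral_congr hEq]
  set Told := ∑ v ∈ range (k + 1), ex par c v * τ v with hTold
  set V := 2 * (Real.exp (Y + R) + 1) + 4 with hV
  have hV0 : 0 ≤ V := by positivity
  have hTp : (1:ℝ) ≤ (N:ℝ) ^ A2 := one_le_pow₀ hNr
  have hcore := core (a := a) (b := b) (s := s) (k := k) hpl (fun v n => (hW v).le_one n) (hpar k) τ N N' hN'
    h hhm Y R hR (fun y _ => (hh1 y).trans (by norm_num)) (fun ω n hn u hu => (hwin N N' ω h0 hN' n hn).2 u hu)
    V hV0 (fun η hη => by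
      have h1 := (hfd (a (k + 1)) (b k) 0 (hW _).le_one Y (Y + R) (τ (k + 1)) η hY1 (by linarith) hη).1
      refine h1.trans ?_
      gcongr
      rw [hV]; linarith)
    ((N:ℝ) ^ A2) (|CF| / Y ^ (K1 + K)) (D1 * (N:ℝ) ^ 2 / l ^ K) (l ^ K1) Told Cw hCw hTp
    (by positivity) (by positivity) (by positivity) ?_ ?_
  · refine hcore.trans (ENNReal.ofReal_le_ofReal ?_)
    have h1 := fin_bd (CF := CF) (D1 := D1) (V := V) (T := (N:ℝ) ^ A2) (K := K) (K1 := K1) hCw hR hl2 hNr hY1 hY2 hlK rfl rfl rfl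
      hV0 W (VT_bd hNr hCw hA2 hV) (by positivity)
    refine h1.trans ?_
    have h2 : 0 ≤ (Real.log N0) ^ K := by
      have : 0 ≤ Real.log N0 := Real.log_nonneg (by exact_mod_cast (by omega : 1 ≤ N0))
      positivity
    refine div_le_div_of_nonneg_right (mul_le_mul_of_nonneg_right ?_ (sq_nonneg _)) (pow_nonneg hlog.le K)
    linarith [h2, hD]
  · -- frequencies in the exceptional interval
    intro η hηT hηL
    have hAY : ∀ x : ℝ, x ≤ (N:ℝ) ^ (A + A2) → x ≤ Real.exp (AF * Y) := by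
      intro x hx
      refine hx.trans ?_
      have e1 : (N:ℝ) ^ (A + A2) = Real.exp (((A + A2 : ℕ) : ℝ) * l) := by
        rw [← Real.rpow_natCast, Real.rpow_def_of_pos hN0r]
        congr 1
        ring
      rw [e1]
      apply Real.exp_le_exp.mpr
      rw [div_le_iff₀ hCw] at hAF
      have h3 : (AF:ℝ) * (Cw / 2 * l) ≤ AF * Y := mul_le_mul_of_nonneg_left hY2 (Nat.cast_nonneg _)
      have h4 : ((A + A2 : ℕ) : ℝ) * l ≤ (AF:ℝ) * (Cw / 2 * l) := by
        push_cast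
        have := mul_le_mul_of_nonneg_right hAF (by linarith : 0 ≤ l / 2)
        nlinarith
      linarith
    have hτw : |τ (k + 1)| ≤ (N:ℝ) ^ A := hτ _ (Finset.mem_range.mpr (by omega))
    have hsep : Y ^ KF ≤ |τ (k + 1) - η| := by
      have h5 : ∑ v ∈ range (k + 1 + 1), ex par c v * τ v = Told + Cw * τ (k + 1) := by
        rw [Finset.sum_range_succ]
      rw [h5] at hT
      have h6 : |Told + Cw * τ (k + 1)| ≤ |Told + Cw * η| + Cw * |τ (k + 1) - η| := by
        have : Told + Cw * τ (k + 1) = (Told + Cw * η) + Cw * (τ (k + 1) - η) := by ring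
        rw [this]
        refine (abs_add_le _ _).trans ?_
        rw [abs_mul, abs_of_pos hCw]
      have h7 : l ^ K1 ≤ l ^ (max K1 KF) := pow_le_pow_right₀ (by linarith) (le_max_left _ _)
      have h8 : l ^ KF ≤ l ^ (max K1 KF) := pow_le_pow_right₀ (by linarith) (le_max_right _ _)
      have h9 : Y ^ KF ≤ ((Cw + 1) * l) ^ KF := pow_le_pow_left₀ hYpos.le hY3 _
      rw [mul_pow] at h9
      rw [hK', pow_succ] at hT
      have h10 : 0 < l ^ (max K1 KF) := by positivity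
      have h11 : Cw * (Y ^ KF) ≤ Cw * ((Cw + 1) ^ KF * l ^ (max K1 KF)) :=
        mul_le_mul_of_nonneg_left (h9.trans (mul_le_mul_of_nonneg_left h8 (by positivity))) hCw.le
      have h12 : 2 * Cw * (Cw + 1) ^ KF * l ^ (max K1 KF) ≤ l * l ^ (max K1 KF) :=
        mul_le_mul_of_nonneg_right hlX h10.le
      have h13 : 2 * l ^ (max K1 KF) ≤ l * l ^ (max K1 KF) := mul_le_mul_of_nonneg_right hl2 h10.le
      have h15 : 2 * (Cw * Y ^ KF) ≤ l * l ^ (max K1 KF) := by
        refine le_trans (le_of_eq_of_le (by ring) (mul_le_mul_of_nonneg_left h11 (by norm_num : (0:ℝ) ≤ 2))) ?_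
        refine le_trans (le_of_eq (by ring)) h12
      have h16 : 2 * l ^ K1 ≤ l * l ^ (max K1 KF) :=
        (mul_le_mul_of_nonneg_left h7 (by norm_num)).trans h13
      have h17 : l ^ (max K1 KF) * l ≤ l ^ K1 + Cw * |τ (k + 1) - η| :=
        hT.trans (h6.trans (by linarith))
      have h14 : Cw * Y ^ KF ≤ Cw * |τ (k + 1) - η| := by
        rw [mul_comm (l ^ (max K1 KF)) l] at h17
        linarith
      exact le_of_mul_le_mul_left h14 hCw
    have h1 := hF Y Y (Y + R) (τ (k + 1)) η hY1 le_rfl (by linarith) le_rfl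
      (hAY _ (hτw.trans (pow_le_pow_right₀ hNr (by omega))))
      (hAY _ (hηT.trans (pow_le_pow_right₀ hNr (by omega)))) hsep
    refine h1.trans ?_
    gcongr
    exact le_abs_self _
  · -- the other frequencies
    intro η hηT hηL
    have hpk : par k ∈ range (k + 1) := Finset.mem_range.mpr (by have := hpar k; omega)
    have hsum : ∑ v ∈ range (k + 1), ex par c v * Function.update τ (par k) (τ (par k) + c k * η) v =
        Told + Cw * η := by
      rw [hTold, ← Finset.add_sum_erase _ _ hpk, ← Finset.add_sum_erase (range (k + 1))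
        (fun v => ex par c v * τ v) hpk, Function.update_self]
      have : ∑ x ∈ (range (k + 1)).erase (par k), ex par c x * Function.update τ (par k) (τ (par k) + c k * η) x =
          ∑ x ∈ (range (k + 1)).erase (par k), ex par c x * τ x := by
        refine Finset.sum_congr rfl fun x hx => ?_
        rw [Function.update_of_ne (Finset.ne_of_mem_erase hx)]
      rw [this, hCw', ex_succ par c k (hpar k)]
      ring
    refine hR1 N N' _ hN hNN hN' (fun v hv => ?_) (by rw [hsum]; exact hηL)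
    have hτv : |τ v| ≤ (N:ℝ) ^ A := hτ v (Finset.mem_range.mpr (by have := Finset.mem_range.mp hv; omega))
    have hb1 : (N:ℝ) ^ A ≤ (N:ℝ) ^ (A + A2) := pow_le_pow_right₀ hNr (by omega)
    have hb2 : (N:ℝ) ^ A2 ≤ (N:ℝ) ^ (A + A2) := pow_le_pow_right₀ hNr (by omega)
    have hb3 : (1 + c k) ≤ (N:ℝ) ^ A4 := by
      refine hA4.trans ?_
      have h1 : (A4:ℝ) ≤ (2:ℝ) ^ A4 := by exact_mod_cast Nat.lt_two_pow_self.le
      exact h1.trans (pow_le_pow_left₀ (by norm_num) (by exact_mod_cast hN) _)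
    have hb4 : (1 + c k) * (N:ℝ) ^ (A + A2) ≤ (N:ℝ) ^ (A + A2 + A4) := by
      rw [pow_add _ (A + A2) A4, mul_comm]
      exact mul_le_mul_of_nonneg_left hb3 (by positivity)
    have hck := hc k
    by_cases hvp : v = par k
    · rw [hvp, Function.update_self]
      have hτp : |τ (par k)| ≤ (N:ℝ) ^ A := by rw [← hvp]; exact hτv
      calc |τ (par k) + c k * η| ≤ |τ (par k)| + |c k * η| := abs_add_le _ _
        _ = |τ (par k)| + c k * |η| := by rw [abs_mul, abs_of_pos hck]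
        _ ≤ (N:ℝ) ^ (A + A2) + c k * (N:ℝ) ^ (A + A2) :=
            add_le_add (hτp.trans hb1) (mul_le_mul_of_nonneg_left (hηT.trans hb2) hck.le)
        _ = (1 + c k) * (N:ℝ) ^ (A + A2) := by ring
        _ ≤ _ := hb4
    · rw [Function.update_of_ne hvp]
      refine (hτv.trans hb1).trans (le_trans ?_ hb4)
      have : 0 < (N:ℝ) ^ (A + A2) := by positivity
      nlinarith

end Pool.Agent.N798.T
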